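import Pool.Agent.N733.AQ.E

/-!
# Goldbach's problem for aliquot sums and cototients

Let `s(m) = σ(m) - m` be the sum of the proper divisors of `m`. For almost all even integers `m` which have a prime
factor larger than `m^(3/10 + ρ)` the numbers `s(m)` and `m - φ(m)` are sums of two different primes, with at least a
twentieth of the number of representations predicted by Hardy and Littlewood, and with the predicted number if the prime
factor is larger than `m^(1/3 + ρ)`. So at least 70 per cent of all even `m` have this property. The same is true for all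
linear combinations `g(m) = α m + β f(m)`, where `f` is any positive multiplicative function of moderate growth with
`f(p) = p + c`, `c ≠ 0`, for all large primes `p`, as long as `g(m)` is positive and not very small. These functions are not
multiplicative, and nothing is known on the distribution of their values in residue classes to large moduli; their values are
taken with large multiplicities.

Proof. Write `m = k p` with the large prime factor `p`. Then `g(m) = A p + B` with `A = α k + β f(k)` and `B = β c f(k)`, and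
`A` is at most `x^(2/3 - ρ)` (`x^(7/10 - ρ)`), up to a power of the logarithm. The theorem on Goldbach representations in the
residue classes of every modulus (`R460/GH`, `R460/GS`, starting files) is applied to the class of `B` modulo `A`, for every
`k`. It needs that the greatest common divisor of `A` and `B` is at most a power of the logarithm; it divides
`α β c gcd(k, f(k))`, and for almost all `m` the numbers `gcd(k, f(k))`, `k ∣ m`, are at most a power of the logarithm.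
-/

set_option autoImplicit false

namespace Pool.Agent.Results.MP_967f73_nt.AliquotSums

open Finset Filter Topology
open Pool.Agent.H560R3.GB (g HL sing)

/-- A positive multiplicative function with `f m ≤ m (1 + log m)^C` and `f p = p + c` for all large primes `p`. -/
structure Moderate (f : ℕ → ℕ) (c : ℤ) : Prop where
  mul : ∀ m n : ℕ, Nat.Coprime m n → f (m * n) = f m * f n
  pos : ∀ m : ℕ, 1 ≤ m → 1 ≤ f m
  growth : ∃ C : ℕ, ∀ m : ℕ, 1 ≤ m → (f m : ℝ) ≤ m * (1 + Real.log m) ^ C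
  prime : ∃ P : ℕ, ∀ p : ℕ, P ≤ p → p.Prime → (f p : ℤ) = p + c

/-- The number of primes `p` with `y₁ < p ≤ y₂` such that `n - p` is a prime. -/
def count (n y₁ y₂ : ℕ) : ℕ := ((Ioc y₁ y₂).filter (fun p => p.Prime ∧ (n - p).Prime)).card

/-- (1) The formula of Hardy and Littlewood for the number `g n` of the ordered representations as a sum of two primes holds
with a relative error of at most `ε`; (2) in every window `(y₁, y₂] ⊆ (0, n]` of a length of at least `n / (log n)^W` the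
number of primes `p` such that `n - p` is a prime is `sing n * (y₂ - y₁) / (log n)²` with a relative error of at most `ε`. -/
def Formula (ε : ℝ) (W n : ℕ) : Prop :=
  |(g n : ℝ) - HL n| ≤ ε * HL n ∧
  ∀ y₁ y₂ : ℕ, y₁ < y₂ → y₂ ≤ n → (n : ℝ) / Real.log n ^ W ≤ (y₂ : ℝ) - y₁ →
    |(count n y₁ y₂ : ℝ) - sing n * ((y₂ : ℝ) - y₁) / Real.log n ^ 2| ≤
      ε * (sing n * ((y₂ : ℝ) - y₁) / Real.log n ^ 2)

/-- In every window `(y₁, y₂] ⊆ (0, n]` of a length of at least `n / (log n)^W` the number of primes `p` such that `n - p` is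
a prime is at least a twentieth of `sing n * (y₂ - y₁) / (log n)²`. -/
def Lower (W n : ℕ) : Prop :=
  ∀ y₁ y₂ : ℕ, y₁ < y₂ → y₂ ≤ n → (n : ℝ) / Real.log n ^ W ≤ (y₂ : ℝ) - y₁ →
    1 / 20 * (sing n * ((y₂ : ℝ) - y₁) / Real.log n ^ 2) ≤ (count n y₁ y₂ : ℝ)

/-- `m` has a prime factor `p ≥ m ^ τ`. -/
def LargePrime (τ : ℝ) (m : ℕ) : Prop := ∃ p : ℕ, p.Prime ∧ p ∣ m ∧ (m : ℝ) ^ τ ≤ p

open Classical in
/-- The proportion of the positive integers `m ≤ N` without the property `P` tends to `0`. -/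
def AlmostAll (P : ℕ → Prop) : Prop :=
  Tendsto (fun N : ℕ => (((Icc 1 N).filter (fun m => ¬ P m)).card : ℝ) / N) atTop (𝓝 0)

/-- The sum of the proper divisors. -/
def aliquot (m : ℕ) : ℕ := ∑ d ∈ m.properDivisors, d

/-- The number `n` is the sum of two different primes, and the system `φ(n / 2 - x) + 1 = n / 2 - x`,
`φ(n / 2 + x) + 1 = n / 2 + x` has an integral solution `x ≠ 0`. -/
def Solved (n : ℕ) : Prop :=
  Even n ∧ (∃ p q : ℕ, p.Prime ∧ q.Prime ∧ p ≠ q ∧ p + q = n) ∧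
    ∃ x : ℤ, x ≠ 0 ∧ 1 ≤ ((n / 2 : ℕ) : ℤ) - x ∧ 1 ≤ ((n / 2 : ℕ) : ℤ) + x ∧
      (Nat.totient (((n / 2 : ℕ) : ℤ) - x).toNat : ℤ) + 1 = ((n / 2 : ℕ) : ℤ) - x ∧
      (Nat.totient (((n / 2 : ℕ) : ℤ) + x).toNat : ℤ) + 1 = ((n / 2 : ℕ) : ℤ) + x

theorem cnt_eq (n : ℕ) : Pool.Agent.W93.PG.cnt n 0 n = g n := by
  unfold Pool.Agent.W93.PG.cnt g
  refine card_bij (fun p _ => (p, n - p)) ?_ ?_ ?_
  · intro p hp
    rw [mem_filter, mem_Ioc] at hp
    rw [mem_filter, HasAntidiagonal.mem_antidiagonal]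
    exact ⟨by simp only; omega, hp.2⟩
  · intro p _ p' _ h
    exact congrArg Prod.fst h
  · rintro ⟨a, b⟩ h
    rw [mem_filter, HasAntidiagonal.mem_antidiagonal] at h
    obtain ⟨h1, h2, h3⟩ := h
    simp only at h1 h2 h3
    have ha := h2.pos
    refine ⟨a, ?_, ?_⟩
    · rw [mem_filter, mem_Ioc]
      refine ⟨⟨ha, by omega⟩, h2, ?_⟩
      have : n - a = b := by omega
      rw [this]
      exact h3
    · have : n - a = b := by omega
      simp [this]

theorem formula_of (ε : ℝ) (W : ℕ) : ∃ n₀ : ℕ, ∀ n : ℕ, n₀ ≤ n → 2 ∣ n →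
    Pool.Agent.W93.PG.WinP ε W n → Formula ε W n := by
  refine ⟨3, fun n hn _ hw => ⟨?_, hw⟩⟩
  have hn3 : (3 : ℝ) ≤ n := by exact_mod_cast hn
  have hL1 : 1 ≤ Real.log n := by
    rw [Real.le_log_iff_exp_le (by linarith)]
    have := Real.exp_one_lt_d9
    linarith
  have h1 := hw 0 n (by omega) le_rfl (by
    rw [Nat.cast_zero, sub_zero]
    exact div_le_self (Nat.cast_nonneg _) (one_le_pow₀ hL1))
  rw [cnt_eq] at h1
  have e : sing n * ((n : ℝ) - ((0 : ℕ) : ℝ)) / Real.log n ^ 2 = HL n := by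
    unfold Pool.Agent.H560R3.GB.HL
    push_cast
    ring
  rw [e] at h1
  exact h1

theorem tm_of {f : ℕ → ℕ} {c : ℤ} (hf : Moderate f c) : Pool.Agent.N733.AQ.TM f c :=
  ⟨hf.mul, hf.pos, hf.growth, hf.prime⟩

open Classical in
theorem almostAll_iff (P : ℕ → Prop) : AlmostAll P ↔ ∀ ε : ℝ, 0 < ε → ∃ N₀ : ℕ, ∀ N : ℕ, N₀ ≤ N →
    (((Icc 1 N).filter (fun m => ¬ P m)).card : ℝ) ≤ ε * N := by
  unfold AlmostAll
  rw [Metric.tendsto_atTop]
  constructor
  · intro h ε hε
    obtain ⟨N₀, hN₀⟩ := h ε hε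
    refine ⟨max N₀ 1, fun N hN => ?_⟩
    have h1 := hN₀ N (le_trans (le_max_left _ _) hN)
    have h2 : (0 : ℝ) < N := by exact_mod_cast (le_trans (le_max_right N₀ 1) hN)
    rw [Real.dist_eq, sub_zero, abs_of_nonneg (by positivity), div_lt_iff₀ h2] at h1
    exact h1.le
  · intro h ε hε
    obtain ⟨N₀, hN₀⟩ := h (ε / 2) (by positivity)
    refine ⟨max N₀ 1, fun N hN => ?_⟩
    have h1 := hN₀ N (le_trans (le_max_left _ _) hN)
    have h2 : (0 : ℝ) < N := by exact_mod_cast (le_trans (le_max_right N₀ 1) hN)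
    rw [Real.dist_eq, sub_zero, abs_of_nonneg (by positivity), div_lt_iff₀ h2]
    nlinarith

theorem almostAll_and {P Q R : ℕ → Prop} (hP : AlmostAll P) (hQ : AlmostAll Q) (m₀ : ℕ)
    (h : ∀ m, m₀ ≤ m → P m → Q m → R m) : AlmostAll R := by
  classical
  rw [almostAll_iff] at *
  intro ε hε
  obtain ⟨N₁, h₁⟩ := hP (ε / 3) (by positivity)
  obtain ⟨N₂, h₂⟩ := hQ (ε / 3) (by positivity)
  obtain ⟨N₃, h₃⟩ := exists_nat_gt (3 * m₀ / ε)
  refine ⟨max N₁ (max N₂ N₃), fun N hN => ?_⟩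
  have b1 := h₁ N (le_trans (le_max_left _ _) hN)
  have b2 := h₂ N (le_trans (le_trans (le_max_left _ _) (le_max_right _ _)) hN)
  have b3 : (N₃ : ℝ) ≤ N := by exact_mod_cast (le_trans (le_trans (le_max_right _ _) (le_max_right _ _)) hN)
  have b4 : (m₀ : ℝ) ≤ ε / 3 * N := by
    have : 3 * m₀ / ε ≤ N := by linarith
    rw [div_le_iff₀ hε] at this
    linarith
  have hsub : (Icc 1 N).filter (fun m => ¬ R m) ⊆
      ((Icc 1 N).filter (fun m => ¬ P m) ∪ (Icc 1 N).filter (fun m => ¬ Q m)) ∪ Icc 1 m₀ := by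
    intro m hm
    rw [mem_filter, mem_Icc] at hm
    rw [mem_union, mem_union, mem_filter, mem_filter, mem_Icc, mem_Icc]
    by_cases h1 : P m
    · by_cases h2 : Q m
      · by_cases h3 : m₀ ≤ m
        · exact absurd (h m h3 h1 h2) hm.2
        · right
          omega
      · left; right
        exact ⟨hm.1, h2⟩
    · left; left
      exact ⟨hm.1, h1⟩
  have hc : ((Icc 1 N).filter (fun m => ¬ R m)).card ≤
      (((Icc 1 N).filter (fun m => ¬ P m)).card + ((Icc 1 N).filter (fun m => ¬ Q m)).card) + m₀ := by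
    refine (card_le_card hsub).trans ((card_union_le _ _).trans ?_)
    have := card_union_le ((Icc 1 N).filter (fun m => ¬ P m)) ((Icc 1 N).filter (fun m => ¬ Q m))
    rw [Nat.card_Icc]
    omega
  have hc' : (((Icc 1 N).filter (fun m => ¬ R m)).card : ℝ) ≤
      ((((Icc 1 N).filter (fun m => ¬ P m)).card : ℝ) + ((Icc 1 N).filter (fun m => ¬ Q m)).card) + m₀ := by
    exact_mod_cast hc
  linarith

theorem card_mono' {N : ℕ} {P Q : ℕ → Prop} {dP : DecidablePred P} {dQ : DecidablePred Q} (h : ∀ m, P m → Q m) :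
    (@Finset.filter _ P dP (Icc 1 N)).card ≤ (@Finset.filter _ Q dQ (Icc 1 N)).card :=
  card_le_card (fun m hm => Finset.mem_filter.2 ⟨(Finset.mem_filter.1 hm).1, h m (Finset.mem_filter.1 hm).2⟩)

theorem general (θ : ℝ) (hθ0 : 0 < θ) (hθ1 : θ < 1) (Q : ℕ → Prop)
    (hE : Pool.Agent.N733.AQ.EBT θ (fun n => 2 ∣ n → Q n)) (f : ℕ → ℕ) (c α β : ℤ) (C : ℕ) (ρ : ℝ)
    (hf : Moderate f c) (hc : c ≠ 0) (hα : α ≠ 0) (hβ : β ≠ 0) (hρ : 0 < ρ) :
    AlmostAll (fun m => LargePrime (1 - θ + ρ) m → (m : ℝ) / Real.log m ^ C ≤ ((α * m + β * f m : ℤ) : ℝ) →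
      Even (α * m + β * f m) → Q (α * m + β * f m).toNat) := by
  classical
  rw [almostAll_iff]
  intro δ hδ
  obtain ⟨N₀, h⟩ := Pool.Agent.N733.AQ.main (tm_of hf) hc α β hα hβ θ hθ0 hθ1 (fun n => 2 ∣ n → Q n) hE (min ρ θ)
    (lt_min hρ hθ0) (min_le_right _ _) C (δ / 2) (by positivity)
  obtain ⟨N₁, hN₁⟩ := exists_nat_gt (2 / δ)
  refine ⟨N₀ + N₁, fun N hN => ?_⟩
  have h1 := h N (by omega)
  have h2 : (1 : ℝ) ≤ δ / 2 * N := by
    have e1 : (N₁ : ℝ) ≤ N := by exact_mod_cast (by omega : N₁ ≤ N)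
    have e2 : 2 / δ ≤ N := by linarith
    rw [div_le_iff₀ hδ] at e2
    linarith
  have h3 : ((Icc 1 N).filter (fun m : ℕ => ¬ (LargePrime (1 - θ + ρ) m → (m : ℝ) / Real.log m ^ C ≤
      ((α * m + β * f m : ℤ) : ℝ) → Even (α * m + β * f m) → Q (α * m + β * f m).toNat))) ⊆
      insert 1 ((Icc 1 N).filter (fun m => Pool.Agent.N733.AQ.LP (1 - θ + min ρ θ) m ∧
        (m : ℝ) / Real.log m ^ C ≤ ((α * m + β * f m : ℤ) : ℝ) ∧
        ¬ (2 ∣ (α * m + β * f m).toNat → Q (α * m + β * f m).toNat))) := by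
    intro m hm
    rw [mem_filter] at hm
    obtain ⟨hmx, hm2⟩ := hm
    push Not at hm2
    obtain ⟨⟨p, hp, hpm, hpτ⟩, g1, g2, g3⟩ := hm2
    rw [mem_insert, mem_filter]
    have hm1 := (mem_Icc.1 hmx).1
    rcases Nat.lt_or_ge 1 m with h4 | h4
    · right
      have hm1r : (1 : ℝ) < m := by exact_mod_cast h4
      refine ⟨hmx, ⟨p, hp, hpm, ?_⟩, g1, ?_⟩
      · refine le_trans ?_ hpτ
        apply Real.rpow_le_rpow_of_exponent_le hm1r.le
        linarith [min_le_left ρ θ]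
      · push Not
        refine ⟨?_, g3⟩
        have hlog : 0 < Real.log m := Real.log_pos hm1r
        have hpos : (0 : ℝ) < ((α * m + β * f m : ℤ) : ℝ) := lt_of_lt_of_le (by positivity) g1
        have hpos' : 0 < α * m + β * f m := by exact_mod_cast hpos
        have e : (((α * m + β * f m).toNat : ℕ) : ℤ) = α * m + β * f m := Int.toNat_of_nonneg hpos'.le
        have : (2 : ℤ) ∣ (((α * m + β * f m).toNat : ℕ) : ℤ) := by
          rw [e]
          exact even_iff_two_dvd.1 g2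
        exact_mod_cast this
    · left
      omega
  have h4 : (((Icc 1 N).filter (fun m : ℕ => ¬ (LargePrime (1 - θ + ρ) m → (m : ℝ) / Real.log m ^ C ≤
      ((α * m + β * f m : ℤ) : ℝ) → Even (α * m + β * f m) → Q (α * m + β * f m).toNat))).card : ℝ) ≤
      (((Icc 1 N).filter (fun m => Pool.Agent.N733.AQ.LP (1 - θ + min ρ θ) m ∧
        (m : ℝ) / Real.log m ^ C ≤ ((α * m + β * f m : ℤ) : ℝ) ∧
        ¬ (2 ∣ (α * m + β * f m).toNat → Q (α * m + β * f m).toNat))).card : ℝ) + 1 := by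
    exact_mod_cast (card_le_card h3).trans (card_insert_le _ _)
  have h5 : (((Icc 1 N).filter (fun m => Pool.Agent.N733.AQ.LP (1 - θ + min ρ θ) m ∧
        (m : ℝ) / Real.log m ^ C ≤ ((α * m + β * f m : ℤ) : ℝ) ∧
        ¬ (2 ∣ (α * m + β * f m).toNat → Q (α * m + β * f m).toNat))).card : ℝ) ≤ δ / 2 * N :=
    le_trans (Nat.cast_le.2 (card_mono' (fun m hm => hm))) h1
  refine le_trans (Nat.cast_le.2 (card_mono' (fun m hm => hm))) (h4.trans ((add_le_add_left h5 1).trans ?_))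
  linarith

theorem asymptotic (f : ℕ → ℕ) (c α β : ℤ) (C W : ℕ) (ρ ε : ℝ) (hf : Moderate f c) (hc : c ≠ 0) (hα : α ≠ 0)
    (hβ : β ≠ 0) (hρ : 0 < ρ) (hε : 0 < ε) :
    AlmostAll (fun m => LargePrime (1 / 3 + ρ) m → (m : ℝ) / Real.log m ^ C ≤ ((α * m + β * f m : ℤ) : ℝ) →
      Even (α * m + β * f m) → Formula ε W (α * m + β * f m).toNat) := by
  have h := general (2 / 3) (by norm_num) (by norm_num) (Formula ε W)
    (Pool.Agent.N733.AQ.ebt_asymp (Formula ε W) ε hε W (formula_of ε W)) f c α β C ρ hf hc hα hβ hρ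
  rwa [show (1 - 2 / 3 : ℝ) = 1 / 3 by norm_num] at h

theorem lower (f : ℕ → ℕ) (c α β : ℤ) (C W : ℕ) (ρ : ℝ) (hf : Moderate f c) (hc : c ≠ 0) (hα : α ≠ 0)
    (hβ : β ≠ 0) (hρ : 0 < ρ) :
    AlmostAll (fun m => LargePrime (3 / 10 + ρ) m → (m : ℝ) / Real.log m ^ C ≤ ((α * m + β * f m : ℤ) : ℝ) →
      Even (α * m + β * f m) → Lower W (α * m + β * f m).toNat) := by
  have h := general (7 / 10) (by norm_num) (by norm_num) (Lower W)
    (Pool.Agent.N733.AQ.ebt_lower (Lower W) W ⟨0, fun n _ _ hw => hw⟩) f c α β C ρ hf hc hα hβ hρ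
  rwa [show (1 - 7 / 10 : ℝ) = 3 / 10 by norm_num] at h

theorem moderate_totient : Moderate Nat.totient (-1) :=
  ⟨Pool.Agent.N733.AQ.tm_totient.mul, Pool.Agent.N733.AQ.tm_totient.pos, Pool.Agent.N733.AQ.tm_totient.growth,
    Pool.Agent.N733.AQ.tm_totient.prime⟩

theorem moderate_sigma : Moderate (fun m => ∑ d ∈ m.divisors, d) 1 :=
  ⟨Pool.Agent.N733.AQ.tm_sigma.mul, Pool.Agent.N733.AQ.tm_sigma.pos, Pool.Agent.N733.AQ.tm_sigma.growth,
    Pool.Agent.N733.AQ.tm_sigma.prime⟩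

theorem solved_of : ∃ n₀ : ℕ, ∀ n : ℕ, n₀ ≤ n → Even n → Lower 1 n → Solved n := by
  have hlog := (Real.tendsto_log_atTop.comp (tendsto_natCast_atTop_atTop (R := ℝ))).eventually_ge_atTop 4
  rw [eventually_atTop] at hlog
  obtain ⟨n1, hn1⟩ := hlog
  refine ⟨n1 + 4, fun n hn he hw => ?_⟩
  have hL : 4 ≤ Real.log (n : ℝ) := hn1 n (by omega)
  have hn4 : (4 : ℝ) ≤ n := by exact_mod_cast (by omega : 4 ≤ n)
  obtain ⟨t, ht⟩ := he
  obtain ⟨y, hy⟩ : ∃ y, y = t - 1 := ⟨_, rfl⟩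
  have ht2 : 2 ≤ t := by omega
  have hyr : (y : ℝ) = n / 2 - 1 := by
    have e1 : 2 * y + 2 = n := by omega
    have e2 : (2 : ℝ) * y + 2 = n := by exact_mod_cast e1
    linarith
  have h1 := hw 0 y (by omega) (by omega) (by
    rw [pow_one, Nat.cast_zero, sub_zero, div_le_iff₀ (by linarith)]
    rw [hyr]
    nlinarith)
  have hs := Pool.Agent.W93.GB.one_le_sing n
  have hy1 : (1 : ℝ) ≤ y := by exact_mod_cast (by omega : 1 ≤ y)
  have h2 : (0 : ℝ) < count n 0 y := by
    refine lt_of_lt_of_le ?_ h1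
    rw [Nat.cast_zero, sub_zero]
    positivity
  have h3 : 0 < count n 0 y := by exact_mod_cast h2
  unfold count at h3
  rw [card_pos] at h3
  obtain ⟨p, hp⟩ := h3
  rw [mem_filter, mem_Ioc] at hp
  obtain ⟨⟨p1, p2⟩, p3, p4⟩ := hp
  have hnt : n / 2 = t := by omega
  refine ⟨⟨t, ht⟩, ⟨p, n - p, p3, p4, by omega, by omega⟩, (t : ℤ) - p, by omega, ?_, ?_, ?_, ?_⟩
  · rw [hnt]
    have : (1 : ℤ) ≤ p := by exact_mod_cast p3.one_lt.le
    linarith
  · rw [hnt]
    omega
  · rw [hnt]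
    have e1 : (t : ℤ) - ((t : ℤ) - p) = p := by ring
    rw [e1, Int.toNat_natCast, Nat.totient_prime p3]
    have := p3.one_lt
    omega
  · rw [hnt]
    have e1 : (t : ℤ) + ((t : ℤ) - p) = ((n - p : ℕ) : ℤ) := by omega
    rw [e1, Int.toNat_natCast, Nat.totient_prime p4]
    have := p4.one_lt
    omega

theorem squarefree_at (τ : ℝ) (hτ : 0 < τ) :
    AlmostAll (fun m => ∀ p : ℕ, (m : ℝ) ^ τ ≤ p → ¬ p ^ 2 ∣ m) := by
  classical
  rw [almostAll_iff]
  intro ε hε
  obtain ⟨s, hs⟩ := exists_nat_gt (2 / ε)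
  have hse : 0 < 2 / ε := by positivity
  have hs0 : (0 : ℝ) < s := by linarith
  have hs1 : 1 ≤ s := by exact_mod_cast hs0
  have ht := ((tendsto_rpow_atTop hτ).comp (tendsto_natCast_atTop_atTop (R := ℝ))).eventually_gt_atTop (s : ℝ)
  rw [eventually_atTop] at ht
  obtain ⟨m₀, hm₀⟩ := ht
  obtain ⟨N₁, hN₁⟩ := exists_nat_gt (2 * m₀ / ε)
  refine ⟨N₁, fun N hN => ?_⟩
  have hsub : (Icc 1 N).filter (fun m : ℕ => ¬ ∀ p : ℕ, (m : ℝ) ^ τ ≤ p → ¬ p ^ 2 ∣ m) ⊆
      (Icc 1 N).filter (fun m => ∃ t : ℕ, s < t ∧ t ^ 2 ∣ m) ∪ Icc 1 m₀ := by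
    intro m hm
    rw [mem_filter] at hm
    obtain ⟨hmx, hm2⟩ := hm
    push Not at hm2
    obtain ⟨p, hp1, hp2⟩ := hm2
    rw [mem_union, mem_filter]
    by_cases h : m₀ ≤ m
    · left
      refine ⟨hmx, p, ?_, hp2⟩
      have : (s : ℝ) < p := lt_of_lt_of_le (hm₀ m h) hp1
      exact_mod_cast this
    · right
      exact mem_Icc.2 ⟨(mem_Icc.1 hmx).1, by omega⟩
  have h1 := (card_le_card hsub).trans (card_union_le _ _)
  rw [Nat.card_Icc, Nat.add_sub_cancel] at h1
  have h2 : (((Icc 1 N).filter (fun m : ℕ => ¬ ∀ p : ℕ, (m : ℝ) ^ τ ≤ p → ¬ p ^ 2 ∣ m)).card : ℝ) ≤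
      (((Icc 1 N).filter (fun m => ∃ t : ℕ, s < t ∧ t ^ 2 ∣ m)).card : ℝ) + m₀ := by exact_mod_cast h1
  have h3 := Pool.Agent.N733.AQ.few_sq N s hs1
  have hN' : 2 * m₀ / ε ≤ N := by
    have : (N₁ : ℝ) ≤ N := by exact_mod_cast hN
    linarith
  rw [div_le_iff₀ hε] at hN'
  have h4 : (N : ℝ) / s ≤ ε / 2 * N := by
    rw [div_le_iff₀ hs0]
    rw [div_lt_iff₀ hε] at hs
    have hN0 : (0 : ℝ) ≤ N := Nat.cast_nonneg _
    nlinarith
  refine h2.trans ?_
  linarith

theorem log_large : ∃ m₀ : ℕ, ∀ m : ℕ, m₀ ≤ m → 2 ≤ Real.log (m : ℝ) := by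
  have hlog := (Real.tendsto_log_atTop.comp (tendsto_natCast_atTop_atTop (R := ℝ))).eventually_ge_atTop 2
  rw [eventually_atTop] at hlog
  exact hlog

theorem both (ρ : ℝ) (hρ : 0 < ρ) :
    AlmostAll (fun m => Even m → LargePrime (3 / 10 + ρ) m → Solved (aliquot m) ∧ Solved (m - Nat.totient m)) := by
  obtain ⟨n₀, hn₀⟩ := solved_of
  obtain ⟨m₁, hm₁⟩ := log_large
  have h1 := lower (fun m => ∑ d ∈ m.divisors, d) 1 (-1) 1 1 1 ρ moderate_sigma (by norm_num) (by norm_num)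
    (by norm_num) hρ
  have h2 := lower Nat.totient (-1) 1 (-1) 1 1 ρ moderate_totient (by norm_num) (by norm_num) (by norm_num) hρ
  have h3 := squarefree_at (3 / 10 + ρ) (by linarith)
  refine almostAll_and h1 (almostAll_and h2 h3 0 (R := fun m => (LargePrime (3 / 10 + ρ) m →
      (m : ℝ) / Real.log m ^ 1 ≤ ((1 * m + -1 * Nat.totient m : ℤ) : ℝ) →
      Even (1 * (m : ℤ) + -1 * Nat.totient m) → Lower 1 (1 * (m : ℤ) + -1 * Nat.totient m).toNat) ∧
      ∀ p : ℕ, (m : ℝ) ^ (3 / 10 + ρ) ≤ p → ¬ p ^ 2 ∣ m) (fun m _ a b => ⟨a, b⟩)) (2 * n₀ + m₁ + 8 ^ 10) ?_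
  rintro m hm g1 ⟨g2, g3⟩ he hLP
  obtain ⟨t, ht⟩ := he
  have ht' : m = 2 * t := by omega
  have h8 : (8 : ℕ) ^ 10 ≤ m := by omega
  have hlm : 2 ≤ Real.log (m : ℝ) := hm₁ m (by omega)
  have hm0 : (0 : ℝ) < m := by
    have : 0 < m := by
      have : (0 : ℕ) < 8 ^ 10 := by norm_num
      omega
    exact_mod_cast this
  have hdiv : (m : ℝ) / Real.log m ^ 1 ≤ m / 2 := by
    rw [pow_one]
    exact div_le_div_of_nonneg_left hm0.le (by norm_num) hlm
  have htr : (m : ℝ) = 2 * t := by exact_mod_cast ht'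
  have ht1 : 1 ≤ t := by omega
  -- the totient
  have htot : Nat.totient m ≤ t := by rw [ht']; exact Pool.Agent.N733.AQ.totient_two_mul_le t
  have htote : Even (Nat.totient m) := Nat.totient_even (by omega)
  have hsig : 3 * t ≤ ∑ d ∈ m.divisors, d := by rw [ht']; exact Pool.Agent.N733.AQ.aliquot_ge t ht1
  have hal : aliquot m + m = ∑ d ∈ m.divisors, d := (Nat.sum_divisors_eq_sum_properDivisors_add_self).symm
  obtain ⟨p, hp, hpm, hpτ⟩ := hLP
  have hp2 : p ≠ 2 := by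
    rintro rfl
    have e1 : (8 : ℝ) ≤ (m : ℝ) ^ (3 / 10 + ρ) := by
      have e2 : (1 : ℝ) ≤ m := by exact_mod_cast (by omega : 1 ≤ m)
      calc (8 : ℝ) = ((8 : ℝ) ^ (10 : ℕ)) ^ (1 / 10 : ℝ) := by
            rw [← Real.rpow_natCast, ← Real.rpow_mul (by norm_num)]
            norm_num
        _ ≤ (m : ℝ) ^ (1 / 10 : ℝ) := by
            apply Real.rpow_le_rpow (by positivity) _ (by norm_num)
            exact_mod_cast h8
        _ ≤ (m : ℝ) ^ (3 / 10 + ρ) := Real.rpow_le_rpow_of_exponent_le e2 (by linarith)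
    have e3 : ((2 : ℕ) : ℝ) = 2 := by norm_num
    rw [e3] at hpτ
    linarith
  have hsige : 2 ∣ ∑ d ∈ m.divisors, d := Pool.Agent.N733.AQ.sigma_even hp hp2 hpm (g3 p hpτ)
  constructor
  · -- the aliquot sum
    have e1 : (-1 * (m : ℤ) + 1 * ((∑ d ∈ m.divisors, d : ℕ) : ℤ)) = (aliquot m : ℤ) := by
      rw [← hal]
      push_cast
      ring
    have e3 : Even (aliquot m) := by
      rw [even_iff_two_dvd]
      have h4 : 2 ∣ aliquot m + m := by rw [hal]; exact hsige
      exact (Nat.dvd_add_left ⟨t, ht'⟩).1 h4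
    have e2 : Lower 1 (aliquot m) := by
      have := g1 ⟨p, hp, hpm, hpτ⟩ (by
        rw [e1]
        refine hdiv.trans ?_
        push_cast
        have : t ≤ aliquot m := by omega
        have : (t : ℝ) ≤ aliquot m := by exact_mod_cast this
        linarith) (by
        rw [e1]
        exact_mod_cast e3)
      rw [e1, Int.toNat_natCast] at this
      exact this
    exact hn₀ _ (by omega) e3 e2
  · have e1 : (1 * (m : ℤ) + -1 * (Nat.totient m : ℤ)) = ((m - Nat.totient m : ℕ) : ℤ) := by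
      rw [Nat.cast_sub (by omega)]
      ring
    have e3 : Even (m - Nat.totient m) := by
      rw [Nat.even_sub (by omega)]
      exact ⟨fun _ => htote, fun _ => ⟨t, ht⟩⟩
    have e2 : Lower 1 (m - Nat.totient m) := by
      have := g2 ⟨p, hp, hpm, hpτ⟩ (by
        rw [e1]
        refine hdiv.trans ?_
        push_cast
        have h4 : t ≤ m - Nat.totient m := by omega
        have h5 : (t : ℝ) ≤ ((m - Nat.totient m : ℕ) : ℝ) := by exact_mod_cast h4
        rw [htr]
        push_cast [Nat.cast_sub (show Nat.totient m ≤ m by omega)] at h5 ⊢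
        linarith) (by
        rw [e1]
        exact_mod_cast e3)
      rw [e1, Int.toNat_natCast] at this
      exact this
    exact hn₀ _ (by omega) e3 e2

open Classical in
theorem density (δ : ℝ) (hδ : δ < 7 / 10) : ∃ N₀ : ℕ, ∀ N : ℕ, N₀ ≤ N →
    δ * (N / 2) ≤ (((Icc 1 N).filter (fun m => Even m ∧ Solved (aliquot m) ∧ Solved (m - Nat.totient m))).card : ℝ) := by
  obtain ⟨η, hη⟩ : ∃ η : ℝ, η = (7 / 10 - δ) / 4 := ⟨_, rfl⟩
  have hη0 : 0 < η := by rw [hη]; linarith
  have h1 := (almostAll_iff _).1 (both η hη0) (η / 4) (by positivity)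
  obtain ⟨N₁, hN₁⟩ := h1
  obtain ⟨M₀, hM₀⟩ := Pool.Agent.N733.AQ.few_smooth (3 / 10 + η) η (by positivity) hη0
  obtain ⟨N₂, hN₂⟩ := exists_nat_gt (2 / η)
  refine ⟨N₁ + 2 * M₀ + N₂ + 2, fun N hN => ?_⟩
  have hb := hN₁ N (by omega)
  obtain ⟨M, hM⟩ : ∃ M, M = N / 2 := ⟨_, rfl⟩
  have hc := hM₀ M (by omega)
  -- the even integers
  have hsub : (Icc 1 M).image (fun t => 2 * t) ⊆
      ((Icc 1 N).filter (fun m => Even m ∧ Solved (aliquot m) ∧ Solved (m - Nat.totient m)) ∪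
        (Icc 1 N).filter (fun m => ¬ (Even m → LargePrime (3 / 10 + η) m → Solved (aliquot m) ∧
          Solved (m - Nat.totient m)))) ∪
        ((Icc 1 M).filter (fun m : ℕ => ∀ p : ℕ, p.Prime → p ∣ m → (p : ℝ) ≤ ((2 * M : ℕ) : ℝ) ^ (3 / 10 + η))).image
          (fun t => 2 * t) := by
    intro m hm
    rw [mem_image] at hm
    obtain ⟨t, ht, rfl⟩ := hm
    rw [mem_Icc] at ht
    have hmem : 2 * t ∈ Icc 1 N := by rw [mem_Icc]; omega
    rw [mem_union, mem_union, mem_filter, mem_filter, mem_image]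
    by_cases h2 : Solved (aliquot (2 * t)) ∧ Solved (2 * t - Nat.totient (2 * t))
    · left; left
      exact ⟨hmem, even_two_mul t, h2⟩
    · by_cases h3 : LargePrime (3 / 10 + η) (2 * t)
      · left; right
        exact ⟨hmem, fun h => h2 (h (even_two_mul t) h3)⟩
      · right
        refine ⟨t, ?_, rfl⟩
        rw [mem_filter, mem_Icc]
        refine ⟨ht, fun p hp hpt => ?_⟩
        by_contra h4
        push Not at h4
        apply h3
        refine ⟨p, hp, Dvd.dvd.mul_left hpt 2, ?_⟩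
        refine le_trans ?_ h4.le
        apply Real.rpow_le_rpow (by positivity) _ (by positivity)
        exact_mod_cast (by omega : 2 * t ≤ 2 * M)
  have hcard : ((Icc 1 M).image (fun t => 2 * t)).card = M := by
    rw [card_image_of_injective _ (fun a b h => by simpa using h), Nat.card_Icc, Nat.add_sub_cancel]
  have h2 := card_le_card hsub
  rw [hcard] at h2
  have h3 : (M : ℝ) ≤ ((((Icc 1 N).filter (fun m => Even m ∧ Solved (aliquot m) ∧ Solved (m - Nat.totient m))).card : ℝ) +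
      (((Icc 1 N).filter (fun m => ¬ (Even m → LargePrime (3 / 10 + η) m → Solved (aliquot m) ∧
          Solved (m - Nat.totient m)))).card : ℝ)) +
      (((Icc 1 M).filter (fun m : ℕ => ∀ p : ℕ, p.Prime → p ∣ m → (p : ℝ) ≤ ((2 * M : ℕ) : ℝ) ^ (3 / 10 + η))).card : ℝ) := by
    have h4 := h2.trans ((card_union_le _ _).trans (add_le_add (card_union_le _ _) card_image_le))
    exact_mod_cast h4
  have hMN : (N : ℝ) / 2 - 1 ≤ M := by
    have : N ≤ 2 * M + 1 := by omega
    have : (N : ℝ) ≤ 2 * M + 1 := by exact_mod_cast this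
    linarith
  have hMN2 : (M : ℝ) ≤ N / 2 := by
    have : 2 * M ≤ N := by omega
    have : (2 : ℝ) * M ≤ N := by exact_mod_cast this
    linarith
  have hN2 : 2 / η ≤ N := by
    have : (N₂ : ℝ) ≤ N := by exact_mod_cast (by omega : N₂ ≤ N)
    linarith
  rw [div_le_iff₀ hη0] at hN2
  have e1 : (7 / 10 - 2 * η) * M ≤ (M : ℝ) - (3 / 10 + η + η) * M := by linarith
  have e2 : (7 / 10 - 2 * η) * ((N : ℝ) / 2 - 1) ≤ (7 / 10 - 2 * η) * M ∨ 7 / 10 - 2 * η < 0 := by
    rcases le_or_gt 0 (7 / 10 - 2 * η) with h | h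
    · left
      exact mul_le_mul_of_nonneg_left hMN h
    · right
      exact h
  have hb' : (((Icc 1 N).filter (fun m => ¬ (Even m → LargePrime (3 / 10 + η) m → Solved (aliquot m) ∧
          Solved (m - Nat.totient m)))).card : ℝ) ≤ η / 4 * N :=
    le_trans (Nat.cast_le.2 (card_mono' (fun m hm => hm))) hb
  have hc' : (((Icc 1 M).filter (fun m : ℕ => ∀ p : ℕ, p.Prime → p ∣ m →
      (p : ℝ) ≤ ((2 * M : ℕ) : ℝ) ^ (3 / 10 + η))).card : ℝ) ≤ (3 / 10 + η + η) * M :=
    le_trans (Nat.cast_le.2 (card_mono' (fun m hm => hm))) hc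
  rcases e2 with e2 | e2
  · have e3 : δ = 7 / 10 - 4 * η := by rw [hη]; ring
    rw [e3]
    linarith
  · have e3 : δ < 0 := by
      have : δ = 7 / 10 - 4 * η := by rw [hη]; ring
      linarith
    have e4 : δ * ((N : ℝ) / 2) ≤ 0 := mul_nonpos_of_nonpos_of_nonneg e3.le (by positivity)
    exact e4.trans (Nat.cast_nonneg _)

open Classical in
/-- **Goldbach's problem for aliquot sums, cototients and similar functions.** Let `f` be a positive multiplicative
function of moderate growth with `f p = p + c`, `c ≠ 0`, for all large primes `p`, let `α`, `β` be nonzero integers,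
`g(m) = α m + β f(m)`, and let `ρ > 0`. For almost all `m` with a prime factor `≥ m^(1/3 + ρ)` and
`g(m) ≥ m / (log m)^C` the integer `g(m)`, if it is even, satisfies the formula of Hardy and Littlewood; with a prime
factor `≥ m^(3/10 + ρ)` at least the lower bound with the factor `1/20` holds. Euler's function and the sum of the
divisors are examples. For almost all even `m` with a prime factor `≥ m^(3/10 + ρ)` the sum `s(m)` of the proper divisors
and the cototient `m - φ(m)` are sums of two different primes, and the system of the problem is solvable for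
`s(m) / 2` and for `(m - φ(m)) / 2`; this is so for a proportion of at least `7/10` of the even integers `m`. -/
theorem result :
    (∀ (f : ℕ → ℕ) (c α β : ℤ) (C W : ℕ) (ρ ε : ℝ), Moderate f c → c ≠ 0 → α ≠ 0 → β ≠ 0 → 0 < ρ → 0 < ε →
      AlmostAll (fun m => LargePrime (1 / 3 + ρ) m → (m : ℝ) / Real.log m ^ C ≤ ((α * m + β * f m : ℤ) : ℝ) →
        Even (α * m + β * f m) → Formula ε W (α * m + β * f m).toNat)) ∧
    (∀ (f : ℕ → ℕ) (c α β : ℤ) (C W : ℕ) (ρ : ℝ), Moderate f c → c ≠ 0 → α ≠ 0 → β ≠ 0 → 0 < ρ →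
      AlmostAll (fun m => LargePrime (3 / 10 + ρ) m → (m : ℝ) / Real.log m ^ C ≤ ((α * m + β * f m : ℤ) : ℝ) →
        Even (α * m + β * f m) → Lower W (α * m + β * f m).toNat)) ∧
    (Moderate Nat.totient (-1) ∧ Moderate (fun m => ∑ d ∈ m.divisors, d) 1) ∧
    (∀ ρ : ℝ, 0 < ρ → AlmostAll (fun m => Even m → LargePrime (3 / 10 + ρ) m →
      Solved (aliquot m) ∧ Solved (m - Nat.totient m))) ∧
    ∀ δ : ℝ, δ < 7 / 10 → ∃ N₀ : ℕ, ∀ N : ℕ, N₀ ≤ N → δ * (N / 2) ≤
      (((Icc 1 N).filter (fun m => Even m ∧ Solved (aliquot m) ∧ Solved (m - Nat.totient m))).card : ℝ) :=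
  ⟨asymptotic, lower, ⟨moderate_totient, moderate_sigma⟩, both, density⟩

end Pool.Agent.Results.MP_967f73_nt.AliquotSums
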