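import Mathlib
import Pool.Agent.N679.RG.All2

/-!
# The totient system is solvable for 5 / 9 of the integers of every window of length `λ log A`, with the right order of
magnitude, or almost all multiples of a bounded `q` are differences of primes, with the right order of magnitude

For every `ε > 0` there are `Q` and `c > 0` such that for every `λ > 0` there is a `κ > 0`: at every place `A` (large)
and every scale `T`, `λ log A ≤ T ≤ A / 1000`, at least one of the following two statements holds.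

* At least `(5 / 9 - ε) T` of the integers `n` in `(A, A + T]` are such that the totient system (that is, Goldbach's
  problem for `2 n`) has at least `κ n / log² n` solutions `x`.
* For some `q ≤ Q` and some `X` with `c T ≤ X ≤ 2 T` all but at most the proportion `ε` of the multiples `h ≤ X` of `q`
  are differences of primes with the right order of magnitude: at least `κ A / log² A` primes `p ≤ 4 A` with `p + h`
  prime.
-/

set_option autoImplicit false

namespace Pool.Agent.Results.MP_967f73_nt.FiveNinthsOrPrimePairs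

open Finset Filter

/-- `x` is an integral solution of the totient system at `n` -/
def IsSolution (n : ℕ) (x : ℤ) : Prop :=
  1 ≤ (n : ℤ) - x ∧ 1 ≤ (n : ℤ) + x ∧
    ((Nat.totient ((n : ℤ) - x).toNat : ℤ) + 1 = (n : ℤ) - x) ∧
    ((Nat.totient ((n : ℤ) + x).toNat : ℤ) + 1 = (n : ℤ) + x)

/-- the number of the solutions of the totient system at `n` -/
noncomputable def solutions (n : ℕ) : ℕ := {x : ℤ | IsSolution n x}.ncard

/-- the number of the primes `p ≤ x` with `p + h` prime -/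
def primePairs (h x : ℕ) : ℕ := ((Icc 1 x).filter (fun p => p.Prime ∧ (p + h).Prime)).card

theorem sol_of {n p : ℕ} (hp : p.Prime) (hq : (2 * n - p).Prime) : IsSolution n ((p : ℤ) - n) := by
  have h1 : p ≤ 2 * n := by
    have := hq.pos
    omega
  have e1 : (n : ℤ) - ((p : ℤ) - n) = ((2 * n - p : ℕ) : ℤ) := by omega
  have e2 : (n : ℤ) + ((p : ℤ) - n) = (p : ℤ) := by ring
  unfold IsSolution
  rw [e1, e2, Int.toNat_natCast, Int.toNat_natCast, Nat.totient_prime hp, Nat.totient_prime hq]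
  have h2 := hp.one_lt
  have h3 := hq.one_lt
  refine ⟨by omega, by omega, by omega, by omega⟩

theorem g_le (n : ℕ) : Pool.Agent.N679.RG.g (2 * n) ≤ solutions n := by
  unfold Pool.Agent.N679.RG.g solutions
  have hfin : {x : ℤ | IsSolution n x}.Finite := by
    refine (Set.finite_Icc (-(n : ℤ)) n).subset ?_
    rintro x ⟨h1, h2, _, _⟩
    exact ⟨by linarith, by linarith⟩
  rw [← Set.ncard_coe_finset]
  refine Set.ncard_le_ncard_of_injOn (fun p : ℕ => (p : ℤ) - n) ?_ ?_ hfin
  · intro p hp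
    rw [mem_coe, mem_filter] at hp
    exact sol_of hp.2.1 hp.2.2
  · intro p _ p' _ h
    have h' : (p : ℤ) - n = (p' : ℤ) - n := h
    omega

theorem log_two {n : ℕ} (hn : 2 ≤ n) : Real.log ((2 * n : ℕ) : ℝ) ≤ 2 * Real.log n := by
  have h2 : (2 : ℝ) ≤ n := by exact_mod_cast hn
  push_cast
  rw [Real.log_mul (by norm_num) (by positivity)]
  have := Real.log_le_log (by norm_num) h2
  linarith

theorem compare {n : ℕ} (hn : 2 ≤ n) {κ : ℝ} (hκ : 0 < κ) :
    κ / 2 * ((n : ℝ) / (Real.log n) ^ 2) ≤ κ * (((2 * n : ℕ) : ℝ) / (Real.log ((2 * n : ℕ) : ℝ)) ^ 2) := by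
  have h2 : (2 : ℝ) ≤ n := by exact_mod_cast hn
  have hl : 0 < Real.log (n : ℝ) := Real.log_pos (by linarith)
  have hl2 : 0 < Real.log ((2 * n : ℕ) : ℝ) := by
    apply Real.log_pos
    push_cast
    linarith
  have h3 := log_two hn
  have h4 : (Real.log ((2 * n : ℕ) : ℝ)) ^ 2 ≤ (2 * Real.log (n : ℝ)) ^ 2 := pow_le_pow_left₀ hl2.le h3 2
  have h5 : ((2 * n : ℕ) : ℝ) / (2 * Real.log (n : ℝ)) ^ 2 ≤ ((2 * n : ℕ) : ℝ) / (Real.log ((2 * n : ℕ) : ℝ)) ^ 2 :=
    div_le_div_of_nonneg_left (Nat.cast_nonneg _) (by positivity) h4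
  have e : κ / 2 * ((n : ℝ) / (Real.log n) ^ 2) = κ * (((2 * n : ℕ) : ℝ) / (2 * Real.log (n : ℝ)) ^ 2) := by
    push_cast
    field_simp
  rw [e]
  exact mul_le_mul_of_nonneg_left h5 hκ.le

open Classical in
theorem result : ∀ ε : ℝ, 0 < ε → ∃ (Q : ℕ) (c : ℝ), 0 < c ∧ ∀ lam : ℝ, 0 < lam →
    ∃ κ : ℝ, 0 < κ ∧ ∀ᶠ A : ℕ in atTop, ∀ T : ℕ, lam * Real.log A ≤ T → 1000 * T ≤ A →
      (5 / 9 - ε) * T ≤
        (((Ioc A (A + T)).filter (fun n : ℕ => κ * (n / (Real.log n) ^ 2) ≤ (solutions n : ℝ))).card : ℝ) ∨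
      ∃ q X : ℕ, 1 ≤ q ∧ q ≤ Q ∧ c * T ≤ (X : ℝ) ∧ X ≤ 2 * T ∧
        (((Icc 1 X).filter (fun h => q ∣ h ∧
          (primePairs h (4 * A) : ℝ) < κ * (A / (Real.log A) ^ 2))).card : ℝ) ≤ ε * (X / q) := by
  intro ε hε
  obtain ⟨Q, c, hc, H⟩ := Pool.Agent.N679.RG.fin2 (ε / 2) (by positivity)
  refine ⟨Q, c, hc, fun lam hlam => ?_⟩
  obtain ⟨κ, hκ, H⟩ := H lam hlam
  refine ⟨κ / 2, by positivity, ?_⟩
  have ht : Tendsto (fun A : ℕ => 2 * A) atTop atTop :=
    tendsto_atTop_mono (fun A => show A ≤ 2 * A by omega) tendsto_id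
  filter_upwards [ht.eventually H, eventually_ge_atTop 2] with A hA hA2 T hT1 hT2
  have hlog := log_two hA2
  have hTnn : (0 : ℝ) ≤ T := Nat.cast_nonneg T
  rcases hA (2 * T) (by
    push_cast at hlog ⊢
    nlinarith) (by omega) with h | ⟨q, X, hq1, hq2, hX1, hX2, h⟩
  · left
    have h1 : ((Ioc A (A + T)).filter (fun n : ℕ => ¬ κ / 2 * (n / (Real.log n) ^ 2) ≤ (solutions n : ℝ))).card ≤
        ((Ioc (2 * A) (2 * A + 2 * T)).filter (fun m => Even m ∧
          (Pool.Agent.N679.RG.g m : ℝ) < κ * (m / (Real.log m) ^ 2))).card := by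
      apply card_le_card_of_injOn (fun n : ℕ => 2 * n)
      · intro n hn
        rw [mem_coe, mem_filter, mem_Ioc] at hn
        rw [mem_coe, mem_filter, mem_Ioc]
        have hn1 := hn.1
        refine ⟨⟨show 2 * A < 2 * n by omega, show 2 * n ≤ 2 * A + 2 * T by omega⟩, even_two_mul n, ?_⟩
        have h2 : (Pool.Agent.N679.RG.g (2 * n) : ℝ) ≤ solutions n := by exact_mod_cast g_le n
        exact (h2.trans_lt (not_le.1 hn.2)).trans_le (compare (by omega) hκ)
      · intro a _ b _ hab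
        have : 2 * a = 2 * b := hab
        omega
    have h2 : (((Ioc A (A + T)).filter (fun n : ℕ =>
          ¬ κ / 2 * (n / (Real.log n) ^ 2) ≤ (solutions n : ℝ))).card : ℝ) ≤
        (((Ioc (2 * A) (2 * A + 2 * T)).filter (fun m => Even m ∧
          (Pool.Agent.N679.RG.g m : ℝ) < κ * (m / (Real.log m) ^ 2))).card : ℝ) := by exact_mod_cast h1
    have h3 := Finset.card_filter_add_card_filter_not (s := Ioc A (A + T))
      (fun n : ℕ => κ / 2 * (n / (Real.log n) ^ 2) ≤ (solutions n : ℝ))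
    rw [Nat.card_Ioc, Nat.add_sub_cancel_left] at h3
    have h4 : (((Ioc A (A + T)).filter (fun n : ℕ =>
          κ / 2 * (n / (Real.log n) ^ 2) ≤ (solutions n : ℝ))).card : ℝ) +
        (((Ioc A (A + T)).filter (fun n : ℕ =>
          ¬ κ / 2 * (n / (Real.log n) ^ 2) ≤ (solutions n : ℝ))).card : ℝ) = T := by exact_mod_cast h3
    have h5 := h2.trans h
    push_cast at h5
    nlinarith
  · right
    have hX0 : (0 : ℝ) ≤ X := Nat.cast_nonneg X
    have hq0 : (0 : ℝ) ≤ q := Nat.cast_nonneg q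
    refine ⟨q, X, hq1, hq2, ?_, hX2, ?_⟩
    · push_cast at hX1
      nlinarith
    have h1 : (((Icc 1 X).filter (fun h => q ∣ h ∧
          (primePairs h (4 * A) : ℝ) < κ / 2 * (A / (Real.log A) ^ 2))).card : ℝ) ≤
        (((Icc 1 X).filter (fun h => q ∣ h ∧ (Pool.Agent.N679.RG.pairs h (2 * (2 * A)) : ℝ) <
            κ * (((2 * A : ℕ) : ℝ) / (Real.log ((2 * A : ℕ) : ℝ)) ^ 2))).card : ℝ) := by
      rw [Nat.cast_le]
      apply card_le_card
      intro h hh
      rw [mem_filter] at hh ⊢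
      refine ⟨hh.1, hh.2.1, ?_⟩
      have e2 : 2 * (2 * A) = 4 * A := by ring
      rw [e2]
      exact hh.2.2.trans_le (compare hA2 hκ)
    refine h1.trans (h.trans ?_)
    have h6 : (0 : ℝ) ≤ (X : ℝ) / q := by positivity
    nlinarith

end Pool.Agent.Results.MP_967f73_nt.FiveNinthsOrPrimePairs
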