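import Pool.Agent.N860.GL.Gold

/-!
# Goldbach in totient form near all integers with generic leading digits

The integers `k = q y + a`, `0 ≤ a < q`, are considered whose leading part `y` is random, or the integer
part of the value of a function at a generic real number, and whose last part `a` is arbitrary: it runs
through arbitrary prescribed sets `A n` of polynomially many residues modulo arbitrary prescribed moduli
`q n`.  If `q ≤ y ^ (2 - η)` (the leading third of the digits and a little more is generic), then almost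
surely for all but finitely many `n`, ALL integers `m` at a distance of at most `(log k) ^ W` from such a
`k` (with `gcd (m, q) ≤ (log k) ^ T`) satisfy the asymptotic formula of Hardy and Littlewood for the number
of the integral solutions `x` of the system `φ(m - x) + 1 = m - x`, `φ(m + x) + 1 = m + x` in every window
of a length of at least `2 m / (log 2 m) ^ W`.  If only `q ≤ y ^ (7 / 3 - η)`, there are at least one
twentieth of the predicted number of solutions.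

The proof: the theorems of the starting library on the exceptional set in all residue classes of all
moduli (`R460/GH`, `R460/GS`), a decomposition into dyadic shells and neighbouring classes, and
Borel–Cantelli without independence.
-/

set_option autoImplicit false

namespace Pool.Agent.Results.MP_967f73_nt.GenericLeadingDigits

open Finset MeasureTheory Filter
open scoped ENNReal Topology
open Pool.Agent.H560R3.GB (sing)

/-- `x` is an integral solution of the system `φ(n - x) + 1 = n - x`, `φ(n + x) + 1 = n + x`. -/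
def Solution (n : ℕ) (x : ℤ) : Prop :=
  1 ≤ (n : ℤ) - x ∧ 1 ≤ (n : ℤ) + x ∧ (Nat.totient ((n : ℤ) - x).toNat : ℤ) + 1 = (n : ℤ) - x ∧
    (Nat.totient ((n : ℤ) + x).toNat : ℤ) + 1 = (n : ℤ) + x

open Classical in
/-- the number of solutions `y₁ < x ≤ y₂` -/
noncomputable def count (n : ℕ) (y₁ y₂ : ℤ) : ℕ := ((Ioc y₁ y₂).filter (fun x => Solution n x)).card

/-- the prediction of Hardy and Littlewood for it -/
noncomputable def predicted (n : ℕ) (y₁ y₂ : ℤ) : ℝ := sing (2 * n) * ((y₂ : ℝ) - y₁) / Real.log (2 * n) ^ 2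

/-- `n < 2`, or the prediction holds with the relative error `ε` in every interval `(y₁, y₂] ⊆ [-n, n]` of
length at least `2 n / (log 2 n) ^ W`. -/
def Formula (ε : ℝ) (W n : ℕ) : Prop :=
  2 ≤ n → ∀ y₁ y₂ : ℤ, -(n : ℤ) ≤ y₁ → y₁ < y₂ → y₂ ≤ n → (2 * n : ℝ) / Real.log (2 * n) ^ W ≤ (y₂ : ℝ) - y₁ →
    |(count n y₁ y₂ : ℝ) - predicted n y₁ y₂| ≤ ε * predicted n y₁ y₂

/-- `n < 2`, or every interval `(y₁, y₂] ⊆ [-n, n]` of length at least `2 n / (log 2 n) ^ W` contains at least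
one twentieth of the predicted number of solutions. -/
def Lower (W n : ℕ) : Prop :=
  2 ≤ n → ∀ y₁ y₂ : ℤ, -(n : ℤ) ≤ y₁ → y₁ < y₂ → y₂ ≤ n → (2 * n : ℝ) / Real.log (2 * n) ^ W ≤ (y₂ : ℝ) - y₁ →
    1 / 20 * predicted n y₁ y₂ ≤ (count n y₁ y₂ : ℝ)

/-- `|m - k| ≤ (log k) ^ W` and `gcd (m, q) ≤ (log k) ^ T` -/
def Near (W T q k m : ℕ) : Prop :=
  |(m : ℝ) - k| ≤ Real.log k ^ W ∧ (Nat.gcd m q : ℝ) ≤ Real.log k ^ T

/-- `A n` is a set of at most `n ^ K + K` residues modulo `q n ≥ 1`, for one `K`. -/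
structure Classes (q : ℕ → ℕ) (A : ℕ → Finset ℕ) : Prop where
  pos : ∀ n, 1 ≤ q n
  lt : ∀ n, ∀ a ∈ A n, a < q n
  card : ∃ K : ℕ, ∀ n, #(A n) ≤ n ^ K + K

/-- The conclusion for the integers `k = q n * y n + a`, `a ∈ A n`: for all `W` and `T`, for all but finitely
many `n` and all `m` near such a `k`: the asymptotic formula, if `κ > 1 / 2`; the lower bound, if `κ > 3 / 7`. -/
def Conclusion (κ : ℝ) (q : ℕ → ℕ) (A : ℕ → Finset ℕ) (y : ℕ → ℕ) : Prop :=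
  ∀ W T : ℕ,
    (1 / 2 < κ → ∀ ε : ℝ, 0 < ε → ∀ᶠ n in atTop, ∀ a ∈ A n, ∀ m : ℕ,
      Near W T (q n) (q n * y n + a) m → Formula ε W m) ∧
    (3 / 7 < κ → ∀ᶠ n in atTop, ∀ a ∈ A n, ∀ m : ℕ, Near W T (q n) (q n * y n + a) m → Lower W m)

lemma tot_prime (m : ℕ) (h1 : 1 ≤ m) (h : m.totient + 1 = m) : m.Prime := by
  have h2 : 2 ≤ m := by
    rcases Nat.lt_or_ge m 2 with h3 | h3
    · have : m = 1 := by omega
      rw [this, Nat.totient_one] at h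
      omega
    · exact h3
  exact (Nat.totient_eq_iff_prime (by omega)).1 (by omega)

lemma sol_iff (n : ℕ) (x : ℤ) (hx1 : -(n : ℤ) < x) (hx2 : x ≤ n) :
    Solution n x ↔ ((n : ℤ) + x).toNat.Prime ∧ (2 * n - ((n : ℤ) + x).toNat).Prime := by
  obtain ⟨u, hu⟩ : ∃ u : ℕ, (u : ℤ) = (n : ℤ) + x := ⟨((n : ℤ) + x).toNat, by omega⟩
  obtain ⟨v, hv⟩ : ∃ v : ℕ, (v : ℤ) = (n : ℤ) - x := ⟨((n : ℤ) - x).toNat, by omega⟩
  have hu' : ((n : ℤ) + x).toNat = u := by omega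
  have hv' : ((n : ℤ) - x).toNat = v := by omega
  have huv : 2 * n - u = v := by omega
  unfold Solution
  rw [hu', hv', huv, ← hu, ← hv]
  constructor
  · rintro ⟨h1, h2, h3, h4⟩
    exact ⟨tot_prime u (by omega) (by omega), tot_prime v (by omega) (by omega)⟩
  · rintro ⟨h1, h2⟩
    have a1 := h1.one_lt
    have a2 := h2.one_lt
    refine ⟨by omega, by omega, ?_, ?_⟩
    · rw [Nat.totient_prime h2]
      omega
    · rw [Nat.totient_prime h1]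
      omega

lemma cnt_eq (n : ℕ) (y₁ y₂ : ℤ) (u₁ u₂ : ℕ) (h1 : -(n : ℤ) ≤ y₁) (h3 : y₂ ≤ n) (hu1 : (u₁ : ℤ) = (n : ℤ) + y₁)
    (hu2 : (u₂ : ℤ) = (n : ℤ) + y₂) : Pool.Agent.W93.PG.cnt (2 * n) u₁ u₂ = count n y₁ y₂ := by
  classical
  unfold Pool.Agent.W93.PG.cnt count
  refine card_bij (fun (p : ℕ) _ => (p : ℤ) - n) ?_ ?_ ?_
  · intro p hp
    rw [mem_filter, mem_Ioc] at hp
    obtain ⟨⟨a1, a2⟩, a3, a4⟩ := hp
    rw [mem_filter, mem_Ioc]
    refine ⟨⟨by omega, by omega⟩, ?_⟩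
    rw [sol_iff n _ (by omega) (by omega)]
    have : ((n : ℤ) + ((p : ℤ) - n)).toNat = p := by omega
    rw [this]
    exact ⟨a3, a4⟩
  · intro p _ p' _ hpp
    omega
  · intro x hx
    rw [mem_filter, mem_Ioc] at hx
    obtain ⟨⟨b1, b2⟩, b3⟩ := hx
    rw [sol_iff n _ (by omega) (by omega)] at b3
    refine ⟨((n : ℤ) + x).toNat, ?_, by omega⟩
    rw [mem_filter, mem_Ioc]
    exact ⟨⟨by omega, by omega⟩, b3⟩

lemma window {n W : ℕ} {y₁ y₂ : ℤ} {u₁ u₂ : ℕ} (hu1 : (u₁ : ℤ) = (n : ℤ) + y₁) (hu2 : (u₂ : ℤ) = (n : ℤ) + y₂)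
    (h4 : (2 * n : ℝ) / Real.log (2 * n) ^ W ≤ (y₂ : ℝ) - y₁) :
    ((2 * n : ℕ) : ℝ) / Real.log ((2 * n : ℕ) : ℝ) ^ W ≤ (u₂ : ℝ) - u₁ ∧ (u₂ : ℝ) - u₁ = (y₂ : ℝ) - y₁ := by
  have hu1r : (u₁ : ℝ) = n + y₁ := by exact_mod_cast hu1
  have hu2r : (u₂ : ℝ) = n + y₂ := by exact_mod_cast hu2
  have e2 : (u₂ : ℝ) - u₁ = (y₂ : ℝ) - y₁ := by rw [hu1r, hu2r]; ring
  refine ⟨?_, e2⟩
  rw [e2]
  push_cast
  exact h4

lemma formula_of {ε : ℝ} {W n : ℕ} (h : Pool.Agent.W93.PG.WinP ε W (2 * n)) : Formula ε W n := by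
  intro _ y₁ y₂ h1 h2 h3 h4
  obtain ⟨u₁, hu1⟩ : ∃ u : ℕ, (u : ℤ) = (n : ℤ) + y₁ := ⟨((n : ℤ) + y₁).toNat, by omega⟩
  obtain ⟨u₂, hu2⟩ : ∃ u : ℕ, (u : ℤ) = (n : ℤ) + y₂ := ⟨((n : ℤ) + y₂).toNat, by omega⟩
  obtain ⟨h5, e2⟩ := window hu1 hu2 h4
  have h6 := h u₁ u₂ (by omega) (by omega) h5
  rw [e2, cnt_eq n y₁ y₂ u₁ u₂ h1 h3 hu1 hu2] at h6
  push_cast at h6
  exact h6

lemma lower_of {W n : ℕ} (h : 3 ≤ 2 * n → Pool.Agent.R460.GS.WinL W (2 * n)) : Lower W n := by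
  intro hn y₁ y₂ h1 h2 h3 h4
  obtain ⟨u₁, hu1⟩ : ∃ u : ℕ, (u : ℤ) = (n : ℤ) + y₁ := ⟨((n : ℤ) + y₁).toNat, by omega⟩
  obtain ⟨u₂, hu2⟩ : ∃ u : ℕ, (u : ℤ) = (n : ℤ) + y₂ := ⟨((n : ℤ) + y₂).toNat, by omega⟩
  obtain ⟨h5, e2⟩ := window hu1 hu2 h4
  have h6 := h (by omega) u₁ u₂ (by omega) (by omega) h5
  rw [e2, cnt_eq n y₁ y₂ u₁ u₂ h1 h3 hu1 hu2] at h6
  push_cast at h6
  exact h6

lemma input : Pool.Agent.N860.GL.Input Formula Lower where
  form ε hε W := (Pool.Agent.N860.GL.half_formula ε hε W).mono fun _ _ h => formula_of h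
  low W := (Pool.Agent.N860.GL.half_lower W).mono fun _ _ h => lower_of h
  mono ε ε' hεε W n _ h hn y₁ y₂ h1 h2 h3 h4 := by
    refine (h hn y₁ y₂ h1 h2 h3 h4).trans ?_
    have h5 := Pool.Agent.R460.GS.one_le_sing (2 * n)
    have h6 : (0 : ℝ) ≤ predicted n y₁ y₂ := by
      unfold predicted
      have h7 : (0 : ℝ) ≤ (y₂ : ℝ) - y₁ := by
        have : (y₁ : ℝ) < y₂ := by exact_mod_cast h2
        linarith
      positivity
    gcongr
  zero ε _ W h := absurd h (by norm_num)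

lemma classes_of {q : ℕ → ℕ} {A : ℕ → Finset ℕ} (h : Classes q A) : Pool.Agent.N860.GL.Classes q A :=
  ⟨h.pos, h.lt, h.card⟩

/-- (1) **Random leading parts.** `Y n` are random nonnegative integers on one probability space, however
dependent, with `P (Y n = y) ≤ C / (y + 1)` for all `y`; `∑ P (Y n < exp (n ^ δ)) < ∞` and
`∑ P (Y n < (q n) ^ κ) < ∞`.  (2) **Metric form.** `h n` are real functions with `|h n'| ≥ c |h n|`,
`h n ≥ exp (n ^ δ)` and `h n ≥ (q n) ^ κ` on `[I, J]` for large `n`; `y n = ⌊h n x⌋` for almost every `x`.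
(3) **Digits.** `y n = ⌊x b ^ (t n)⌋`, `q n = b ^ (s n)`, `n ^ δ ≤ t n`, `κ s n ≤ t n`, almost every `x > 0`. -/
theorem result :
    (∀ (q : ℕ → ℕ) (A : ℕ → Finset ℕ), Classes q A →
      ∀ (Ω : Type) [MeasurableSpace Ω] (μ : Measure Ω) [IsProbabilityMeasure μ] (Y : ℕ → Ω → ℕ) (C δ κ : ℝ), 0 < δ →
        (∀ n (y : ℕ), μ {ω | Y n ω = y} ≤ ENNReal.ofReal (C / ((y : ℝ) + 1))) →
        ∑' n : ℕ, μ {ω | (Y n ω : ℝ) < Real.exp ((n : ℝ) ^ δ)} ≠ ∞ →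
        ∑' n : ℕ, μ {ω | (Y n ω : ℝ) < (q n : ℝ) ^ κ} ≠ ∞ →
        ∀ᵐ ω ∂μ, Conclusion κ q A (fun n => Y n ω)) ∧
    (∀ (q : ℕ → ℕ) (A : ℕ → Finset ℕ), Classes q A →
      ∀ (I J c δ κ : ℝ) (h : ℕ → ℝ → ℝ), 0 < δ → 0 < c →
        (∀ᶠ n : ℕ in atTop, ∀ x ∈ Set.Icc I J, DifferentiableAt ℝ (h n) x ∧ c * |h n x| ≤ |deriv (h n) x| ∧
          Real.exp ((n : ℝ) ^ δ) ≤ h n x ∧ (q n : ℝ) ^ κ ≤ h n x) →
        ∀ᵐ x : ℝ, x ∈ Set.Icc I J → Conclusion κ q A (fun n => ⌊h n x⌋₊)) ∧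
    (∀ (b : ℕ), 2 ≤ b → ∀ (t s : ℕ → ℕ) (κ δ : ℝ), 0 < δ →
      (∀ᶠ n : ℕ in atTop, (n : ℝ) ^ δ ≤ t n ∧ κ * s n ≤ t n) →
      ∀ A : ℕ → Finset ℕ, Classes (fun n => b ^ s n) A →
        ∀ᵐ x : ℝ, 0 < x → Conclusion κ (fun n => b ^ s n) A (fun n => ⌊x * b ^ t n⌋₊)) :=
  ⟨fun _ _ hA _ _ μ _ Y _ _ _ hδ hY hs hq =>
      Pool.Agent.N860.GL.random_concl input hδ (classes_of hA) μ Y hY hs hq,
    fun _ _ hA _ _ _ _ _ h hδ hc hh => Pool.Agent.N860.GL.metric_concl input hδ hc (classes_of hA) h hh,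
    fun _ hb _ _ _ _ hδ ht _ hA => Pool.Agent.N860.GL.digits_concl input hb hδ ht (classes_of hA)⟩

end Pool.Agent.Results.MP_967f73_nt.GenericLeadingDigits
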