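import Pool.Agent.N826.IT.F
import Pool.Agent.R460.GH.Conv

/-!
# Goldbach's problem along the orbits of Euler's function

There is a function `κ(m)` tending to infinity such that for almost all positive integers `m` and all `1 ≤ k ≤ κ(m)` the
even integer `φ_k(m) + 2` (`φ_k` the `k`-th iterate of Euler's function `φ`) is a sum of two primes, with the number of
representations predicted by Hardy and Littlewood. Hence `φ(p) + φ(q) = φ_k(m)` is solvable in primes `p`, `q`, and the
system `φ(n - x) + 1 = n - x`, `φ(n + x) + 1 = n + x` has an integral solution `x` for `n = φ_k(m) / 2 + 1`. The same is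
true for `f(φ_k(m)) + a`, where `a` is any nonzero integer and `f` any positive multiplicative function of at most
polynomial growth with `f(p) = p + c` for all large primes `p`.

Proof. The iterates of `φ` are not multiplicative. Write `m = q₀ r₀` with the part `q₀` of `m` composed of the primes
`≤ z₀ = x^(1/(J₀ + 1))`, and `φ(r_i) = s_i r_(i+1)` with the part `s_i` composed of the primes `≤ z_(i+1)`, so
`φ_i(m) = q_i r_i` with `q_(i+1) = φ(q_i) s_i`. With the exception of few `m` no square of a prime `> z_k` divides any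
iterate (`C2`), and all the `s_i` are small: the harmonic measure of the large prime factors of shifted primes is
dominated by the harmonic measure of the primes, so an iterate of `φ` has rarely a prime factor `p > z_i` such that
`p - 1` has a large `z_(i+1)`-smooth part (`D`, `D2`; the sieve of type II is from `N907/EG`). The remaining `m` are
classified by `q₀, s₀, …, s_(k-1)`. In a class `f(φ_k(m)) + a = f(q_k) f(r_k) + a` lies in the residue class of `a`
modulo `f(q_k)`, and the theorem on Goldbach representations in the residue classes of every modulus `q ≤ x^(2/3-ρ)`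
(`R460/GH`, starting files) can be applied; every value is taken rarely, since the `r_i` have a bounded number of prime
factors (`B`).
-/

set_option autoImplicit false

namespace Pool.Agent.Results.MP_967f73_nt.IteratedTotients

open Finset Filter Topology
open Pool.Agent.H560R3.GB (g HL sing)

/-- A positive multiplicative function of at most polynomial growth with `f p = p + c` for all large primes `p`. -/
structure Shifted (f : ℕ → ℕ) (c : ℤ) : Prop where
  mul : ∀ m n : ℕ, Nat.Coprime m n → f (m * n) = f m * f n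
  pos : ∀ m : ℕ, 1 ≤ m → 1 ≤ f m
  growth : ∃ C D : ℕ, ∀ m : ℕ, 1 ≤ m → f m ≤ C * m ^ D
  prime : ∃ P : ℕ, ∀ p : ℕ, P ≤ p → p.Prime → (f p : ℤ) = p + c

/-- The number of primes `p` with `y₁ < p ≤ y₂` such that `n - p` is a prime. -/
def count (n y₁ y₂ : ℕ) : ℕ := ((Ioc y₁ y₂).filter (fun p => p.Prime ∧ (n - p).Prime)).card

/-- (1) The formula of Hardy and Littlewood for `g n` holds with a relative error of at most `ε`; (2) in every
window `(y₁, y₂] ⊆ (0, n]` of a length of at least `n / (log n)^W` the number of primes `p` such that `n - p` is a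
prime is `sing n * (y₂ - y₁) / (log n)²` with a relative error of at most `ε`. -/
def Formula (ε : ℝ) (W n : ℕ) : Prop :=
  |(g n : ℝ) - HL n| ≤ ε * HL n ∧
  ∀ y₁ y₂ : ℕ, y₁ < y₂ → y₂ ≤ n → (n : ℝ) / Real.log n ^ W ≤ (y₂ : ℝ) - y₁ →
    |(count n y₁ y₂ : ℝ) - sing n * ((y₂ : ℝ) - y₁) / Real.log n ^ 2| ≤
      ε * (sing n * ((y₂ : ℝ) - y₁) / Real.log n ^ 2)

open Classical in
/-- The proportion of the positive integers `m ≤ N` without the property `P` tends to `0`. -/
def AlmostAll (P : ℕ → Prop) : Prop :=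
  Tendsto (fun N : ℕ => (((Icc 1 N).filter (fun m => ¬ P m)).card : ℝ) / N) atTop (𝓝 0)

/-- The number of the pairs of primes `(p, q)` with `φ(p) + φ(q) = v`. -/
noncomputable def pairs (v : ℕ) : ℕ :=
  {z : ℕ × ℕ | z.1.Prime ∧ z.2.Prime ∧ Nat.totient z.1 + Nat.totient z.2 = v}.ncard

/-- `x` is an integral solution of the system `φ(n - x) + 1 = n - x`, `φ(n + x) + 1 = n + x`. -/
def IsSolution (n : ℕ) (x : ℤ) : Prop :=
  1 ≤ (n : ℤ) - x ∧ 1 ≤ (n : ℤ) + x ∧ (Nat.totient ((n : ℤ) - x).toNat : ℤ) + 1 = n - x ∧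
    (Nat.totient ((n : ℤ) + x).toNat : ℤ) + 1 = n + x

theorem cnt_eq (n : ℕ) : Pool.Agent.W93.PG.cnt n 0 n = g n := by
  unfold Pool.Agent.W93.PG.cnt g
  refine card_bij (fun p _ => (p, n - p)) ?_ ?_ ?_
  · intro p hp
    rw [mem_filter, mem_Ioc] at hp
    rw [mem_filter, HasAntidiagonal.mem_antidiagonal]
    exact ⟨by simp only; omega, hp.2⟩
  · intro p _ p' _ h
    exact congrArg Prod.fst h
  · rintro ⟨a, b⟩ h
    rw [mem_filter, HasAntidiagonal.mem_antidiagonal] at h
    obtain ⟨h1, h2, h3⟩ := h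
    simp only at h1 h2 h3
    have ha := h2.pos
    refine ⟨a, ?_, ?_⟩
    · rw [mem_filter, mem_Ioc]
      refine ⟨⟨ha, by omega⟩, h2, ?_⟩
      have : n - a = b := by omega
      rw [this]
      exact h3
    · have : n - a = b := by omega
      simp [this]

theorem formula_of (ε : ℝ) (W : ℕ) : ∃ n₀ : ℕ, ∀ n : ℕ, n₀ ≤ n → 2 ∣ n →
    Pool.Agent.W93.PG.WinP ε W n → Formula ε W n := by
  refine ⟨3, fun n hn _ hw => ⟨?_, hw⟩⟩
  have hn3 : (3 : ℝ) ≤ n := by exact_mod_cast hn
  have hL1 : 1 ≤ Real.log n := by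
    rw [Real.le_log_iff_exp_le (by linarith)]
    have := Real.exp_one_lt_d9
    linarith
  have h1 := hw 0 n (by omega) le_rfl (by
    rw [Nat.cast_zero, sub_zero]
    exact div_le_self (Nat.cast_nonneg _) (one_le_pow₀ hL1))
  rw [cnt_eq] at h1
  have e : sing n * ((n : ℝ) - ((0 : ℕ) : ℝ)) / Real.log n ^ 2 = HL n := by
    unfold Pool.Agent.H560R3.GB.HL
    push_cast
    ring
  rw [e] at h1
  exact h1

/-- the exceptional set in the classes `a` modulo `q` -/
theorem eb (ε : ℝ) (hε : 0 < ε) (W : ℕ) (a : ℤ) (ha : a ≠ 0) (A : ℕ) :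
    Pool.Agent.N733.TG.EB a (fun n => 2 ∣ n → Formula ε W n) A := by
  obtain ⟨x₀, hx₀⟩ := Pool.Agent.R460.GH.class_asymp (Formula ε W) ε hε W (formula_of ε W) (1 / 6) (by norm_num) A 1
  have hlog := Real.tendsto_log_atTop.eventually_ge_atTop (a.natAbs : ℝ)
  rw [eventually_atTop] at hlog
  obtain ⟨x₁, hx₁⟩ := hlog
  refine ⟨max x₀ (max x₁ 1), fun X hX q hq hqX V hV => ?_⟩
  have hX0 : x₀ ≤ X := le_trans (le_max_left _ _) hX
  have hX1 : x₁ ≤ X := le_trans (le_trans (le_max_left _ _) (le_max_right _ _)) hX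
  have hX2 : (1 : ℝ) ≤ X := le_trans (le_trans (le_max_right _ _) (le_max_right _ _)) hX
  have hq' : (q : ℝ) ≤ X ^ ((2 : ℝ) / 3 - 1 / 6) := by
    rw [show (2 : ℝ) / 3 - 1 / 6 = 1 / 2 by norm_num, ← Real.sqrt_eq_rpow]
    exact Real.le_sqrt_of_sq_le hqX
  have hgcd : (Int.gcd a q : ℝ) ≤ Real.log X ^ 1 := by
    rw [pow_one]
    refine le_trans ?_ (hx₁ X hX1)
    have : Int.gcd a q ≤ a.natAbs := Nat.le_of_dvd (Int.natAbs_pos.2 ha) (Nat.gcd_dvd_left _ _)
    exact_mod_cast this
  obtain ⟨hfin, hcard⟩ := hx₀ X hX0 q hq hq' a hgcd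
  refine le_trans ?_ hcard
  have h1 : (V.image (fun v : ℕ => ((q : ℤ) * v + a).toNat)).card = V.card := by
    apply card_image_of_injOn
    intro v hv w hw h
    have e1 := (hV v hv).1
    have e2 := (hV w hw).1
    simp only at h
    have e3 : (q : ℤ) * v + a = (q : ℤ) * w + a := by omega
    have e4 : (q : ℤ) * v = (q : ℤ) * w := by linarith
    have e5 : (v : ℤ) = w := mul_left_cancel₀ (by exact_mod_cast (by omega : q ≠ 0)) e4
    exact_mod_cast e5
  rw [← h1, ← Set.ncard_coe_finset]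
  have h2 : ((V.image (fun v : ℕ => ((q : ℤ) * v + a).toNat)) : Set ℕ).ncard ≤
      ({n : ℕ | 0 < n ∧ (n : ℝ) ≤ X ∧ 2 ∣ n ∧ (n : ℤ) ≡ a [ZMOD q] ∧ ¬ Formula ε W n}).ncard := by
    apply Set.ncard_le_ncard _ hfin
    intro n hn
    rw [mem_coe, mem_image] at hn
    obtain ⟨v, hv, rfl⟩ := hn
    obtain ⟨e1, e2, e3⟩ := hV v hv
    have e4 : ((((q : ℤ) * v + a).toNat : ℕ) : ℤ) = (q : ℤ) * v + a := Int.toNat_of_nonneg e1.le
    push Not at e3
    refine ⟨by omega, ?_, e3.1, ?_, e3.2⟩
    · have e5 : ((((q : ℤ) * v + a).toNat : ℕ) : ℝ) = (((q : ℤ) * v + a : ℤ) : ℝ) := by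
        rw [← Int.cast_natCast, e4]
      rw [e5]
      exact e2
    · rw [e4, Int.modEq_iff_dvd]
      exact ⟨-(v : ℤ), by ring⟩
  exact_mod_cast h2

theorem sm_of {f : ℕ → ℕ} {c : ℤ} (hf : Shifted f c) : Pool.Agent.N733.TG.SM f c :=
  ⟨hf.mul, hf.pos, hf.growth, hf.prime⟩

open Classical in
theorem almostAll_iff (P : ℕ → Prop) : AlmostAll P ↔ ∀ ε : ℝ, 0 < ε → ∃ N₀ : ℕ, ∀ N : ℕ, N₀ ≤ N →
    (((Icc 1 N).filter (fun m => ¬ P m)).card : ℝ) ≤ ε * N := by
  unfold AlmostAll
  rw [Metric.tendsto_atTop]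
  constructor
  · intro h ε hε
    obtain ⟨N₀, hN₀⟩ := h ε hε
    refine ⟨max N₀ 1, fun N hN => ?_⟩
    have h1 := hN₀ N (le_trans (le_max_left _ _) hN)
    have h2 : (0 : ℝ) < N := by exact_mod_cast (le_trans (le_max_right N₀ 1) hN)
    rw [Real.dist_eq, sub_zero, abs_of_nonneg (by positivity), div_lt_iff₀ h2] at h1
    exact h1.le
  · intro h ε hε
    obtain ⟨N₀, hN₀⟩ := h (ε / 2) (by positivity)
    refine ⟨max N₀ 1, fun N hN => ?_⟩
    have h1 := hN₀ N (le_trans (le_max_left _ _) hN)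
    have h2 : (0 : ℝ) < N := by exact_mod_cast (le_trans (le_max_right N₀ 1) hN)
    rw [Real.dist_eq, sub_zero, abs_of_nonneg (by positivity), div_lt_iff₀ h2]
    nlinarith

theorem almostAll_and {P Q R : ℕ → Prop} (hP : AlmostAll P) (hQ : AlmostAll Q) (m₀ : ℕ)
    (h : ∀ m, m₀ ≤ m → P m → Q m → R m) : AlmostAll R := by
  classical
  rw [almostAll_iff] at *
  intro ε hε
  obtain ⟨N₁, h₁⟩ := hP (ε / 3) (by positivity)
  obtain ⟨N₂, h₂⟩ := hQ (ε / 3) (by positivity)
  obtain ⟨N₃, h₃⟩ := exists_nat_gt (3 * m₀ / ε)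
  refine ⟨max N₁ (max N₂ N₃), fun N hN => ?_⟩
  have b1 := h₁ N (le_trans (le_max_left _ _) hN)
  have b2 := h₂ N (le_trans (le_trans (le_max_left _ _) (le_max_right _ _)) hN)
  have b3 : (N₃ : ℝ) ≤ N := by exact_mod_cast (le_trans (le_trans (le_max_right _ _) (le_max_right _ _)) hN)
  have b4 : (m₀ : ℝ) ≤ ε / 3 * N := by
    have : 3 * m₀ / ε ≤ N := by linarith
    rw [div_le_iff₀ hε] at this
    linarith
  have hsub : (Icc 1 N).filter (fun m => ¬ R m) ⊆
      ((Icc 1 N).filter (fun m => ¬ P m) ∪ (Icc 1 N).filter (fun m => ¬ Q m)) ∪ Icc 1 m₀ := by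
    intro m hm
    rw [mem_filter, mem_Icc] at hm
    rw [mem_union, mem_union, mem_filter, mem_filter, mem_Icc, mem_Icc]
    by_cases h1 : P m
    · by_cases h2 : Q m
      · by_cases h3 : m₀ ≤ m
        · exact absurd (h m h3 h1 h2) hm.2
        · right
          omega
      · left; right
        exact ⟨hm.1, h2⟩
    · left; left
      exact ⟨hm.1, h1⟩
  have hc : ((Icc 1 N).filter (fun m => ¬ R m)).card ≤
      (((Icc 1 N).filter (fun m => ¬ P m)).card + ((Icc 1 N).filter (fun m => ¬ Q m)).card) + m₀ := by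
    refine (card_le_card hsub).trans ((card_union_le _ _).trans ?_)
    have := card_union_le ((Icc 1 N).filter (fun m => ¬ P m)) ((Icc 1 N).filter (fun m => ¬ Q m))
    rw [Nat.card_Icc]
    omega
  have hc' : (((Icc 1 N).filter (fun m => ¬ R m)).card : ℝ) ≤
      ((((Icc 1 N).filter (fun m => ¬ P m)).card : ℝ) + ((Icc 1 N).filter (fun m => ¬ Q m)).card) + m₀ := by
    exact_mod_cast hc
  linarith

theorem card_mono' {N : ℕ} {P Q : ℕ → Prop} {dP : DecidablePred P} {dQ : DecidablePred Q} (h : ∀ m, P m → Q m) :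
    (@Finset.filter _ P dP (Icc 1 N)).card ≤ (@Finset.filter _ Q dQ (Icc 1 N)).card :=
  card_le_card (fun m hm => Finset.mem_filter.2 ⟨(Finset.mem_filter.1 hm).1, h m (Finset.mem_filter.1 hm).2⟩)

theorem general (k : ℕ) (f : ℕ → ℕ) (c a : ℤ) (ε : ℝ) (W : ℕ) (hf : Shifted f c) (ha : a ≠ 0) (hε : 0 < ε) :
    AlmostAll (fun m => 0 < (f (Nat.totient^[k] m) : ℤ) + a ∧ (Even ((f (Nat.totient^[k] m) : ℤ) + a) →
      Formula ε W ((f (Nat.totient^[k] m) : ℤ) + a).toNat)) := by
  classical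
  rw [almostAll_iff]
  intro δ hδ
  obtain ⟨N₀, h⟩ := Pool.Agent.N826.IT.densk (sm_of hf) a (fun n => 2 ∣ n → Formula ε W n) (eb ε hε W a ha) k δ hδ
  refine ⟨N₀, fun N hN => le_trans (Nat.cast_le.2 (card_mono' ?_)) (h N hN)⟩
  intro m hm h1
  refine hm ⟨h1.1, fun h2 => h1.2 ?_⟩
  rw [even_iff_two_dvd] at h2
  have h3 : ((((f (Nat.totient^[k] m) : ℤ) + a).toNat : ℕ) : ℤ) = (f (Nat.totient^[k] m) : ℤ) + a :=
    Int.toNat_of_nonneg h1.1.le
  have h4 : (2 : ℤ) ∣ ((((f (Nat.totient^[k] m) : ℤ) + a).toNat : ℕ) : ℤ) := by rw [h3]; exact h2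
  exact_mod_cast h4

theorem shifted_totient : Shifted Nat.totient (-1) where
  mul := fun m n h => Nat.totient_mul h
  pos := fun m hm => Nat.totient_pos.2 hm
  growth := ⟨1, 1, fun m _ => by rw [one_mul, pow_one]; exact Nat.totient_le m⟩
  prime := ⟨0, fun p _ hp => by
    rw [Nat.totient_prime hp]
    have := hp.pos
    omega⟩

theorem shifted_sigma : Shifted (fun m => ∑ d ∈ m.divisors, d) 1 where
  mul := fun m n h => by
    have := ArithmeticFunction.isMultiplicative_sigma (k := 1).map_mul_of_coprime h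
    simpa [ArithmeticFunction.sigma_one_apply] using this
  pos := fun m hm => by
    calc 1 ≤ m := hm
      _ ≤ ∑ d ∈ m.divisors, d := single_le_sum (f := fun d => d) (fun _ _ => Nat.zero_le _)
        (Nat.mem_divisors_self m (by omega))
  growth := ⟨1, 2, fun m hm => by
    calc ∑ d ∈ m.divisors, d ≤ ∑ d ∈ m.divisors, m := sum_le_sum (fun d hd => Nat.divisor_le hd)
      _ = m.divisors.card * m := by rw [sum_const, smul_eq_mul]
      _ ≤ m * m := Nat.mul_le_mul_right _ (Nat.card_divisors_le_self m)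
      _ = 1 * m ^ 2 := by ring⟩
  prime := ⟨0, fun p _ hp => by
    rw [Nat.Prime.sum_divisors hp]
    push_cast
    ring⟩

theorem pairs_eq (v : ℕ) : pairs v = g (v + 2) := by
  unfold pairs g
  rw [← Set.ncard_coe_finset]
  congr 1
  ext z
  rw [mem_coe, mem_filter, HasAntidiagonal.mem_antidiagonal, Set.mem_ofPred_eq]
  constructor
  · rintro ⟨h1, h2, h3⟩
    rw [Nat.totient_prime h1, Nat.totient_prime h2] at h3
    have := h1.pos
    have := h2.pos
    exact ⟨by omega, h1, h2⟩
  · rintro ⟨h3, h1, h2⟩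
    refine ⟨h1, h2, ?_⟩
    rw [Nat.totient_prime h1, Nat.totient_prime h2]
    have := h1.pos
    have := h2.pos
    omega

theorem HL_pos {n : ℕ} (hn : 2 ≤ n) : 0 < HL n := by
  unfold Pool.Agent.H560R3.GB.HL
  have h1 := Pool.Agent.W93.GB.one_le_sing n
  have h2 : (2 : ℝ) ≤ n := by exact_mod_cast hn
  have h3 : 0 < Real.log n := Real.log_pos (by linarith)
  have h4 : 0 < sing n := by linarith
  positivity

theorem shifted_id : Shifted (fun m => m) 0 where
  mul := fun m n _ => rfl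
  pos := fun m hm => hm
  growth := ⟨1, 1, fun m _ => by rw [one_mul, pow_one]⟩
  prime := ⟨0, fun p _ _ => by rw [add_zero]⟩

theorem solution_of {v : ℕ} (hv : Even v) (hv2 : 2 ≤ v) (h : |(g (v + 2) : ℝ) - HL (v + 2)| ≤
    1 / 2 * HL (v + 2)) : ∃ x : ℤ, IsSolution (v / 2 + 1) x := by
  have h1 : 0 < HL (v + 2) := HL_pos (by omega)
  have h2 : (0 : ℝ) < g (v + 2) := by
    have := (abs_le.1 h).1
    linarith
  have h3 : 0 < g (v + 2) := by exact_mod_cast h2
  unfold Pool.Agent.H560R3.GB.g at h3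
  rw [card_pos] at h3
  obtain ⟨z, hz⟩ := h3
  rw [mem_filter, HasAntidiagonal.mem_antidiagonal] at hz
  obtain ⟨e1, e2, e3⟩ := hz
  obtain ⟨t, ht⟩ := hv
  have en : v / 2 + 1 = t + 1 := by omega
  rw [en]
  have p1 := e2.pos
  have p2 := e3.pos
  refine ⟨(z.2 : ℤ) - (t + 1), ?_⟩
  have a1 : ((t + 1 : ℕ) : ℤ) - ((z.2 : ℤ) - (t + 1)) = z.1 := by
    push_cast
    omega
  have a2 : ((t + 1 : ℕ) : ℤ) + ((z.2 : ℤ) - (t + 1)) = z.2 := by
    push_cast
    omega
  unfold IsSolution
  rw [a1, a2, Int.toNat_natCast, Int.toNat_natCast, Nat.totient_prime e2, Nat.totient_prime e3]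
  omega

/-! ### all iterates at once -/

theorem almostAll_ball {P : ℕ → ℕ → Prop} (h : ∀ k, AlmostAll (P k)) (j : ℕ) :
    AlmostAll (fun m => ∀ k ≤ j, P k m) := by
  induction j with
  | zero => exact almostAll_and (h 0) (h 0) 0 (fun m _ h1 _ k hk => by
      have : k = 0 := by omega
      rw [this]; exact h1)
  | succ j ih => exact almostAll_and ih (h (j + 1)) 0 (fun m _ h1 h2 k hk => by
      rcases Nat.lt_or_ge k (j + 1) with h3 | h3
      · exact h1 k (by omega)
      · have : k = j + 1 := by omega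
        rw [this]; exact h2)

/-- diagonal argument -/
theorem diagonal {P : ℕ → ℕ → Prop} (hmono : ∀ i j m, i ≤ j → P j m → P i m) (h : ∀ j, AlmostAll (P j)) :
    ∃ κ : ℕ → ℕ, Tendsto κ atTop atTop ∧ AlmostAll (fun m => P (κ m) m) := by
  classical
  have h1 : ∀ j : ℕ, ∃ N₀ : ℕ, ∀ N : ℕ, N₀ ≤ N →
      (((Icc 1 N).filter (fun m => ¬ P j m)).card : ℝ) ≤ 1 / ((j : ℝ) + 1) * N := by
    intro j
    have h2 := (almostAll_iff (P j)).1 (h j) (1 / ((j : ℝ) + 1)) (by positivity)
    obtain ⟨N₀, hN₀⟩ := h2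
    exact ⟨N₀, fun N hN => le_trans (Nat.cast_le.2 (card_mono' fun m hm => hm)) (hN₀ N hN)⟩
  choose A hA using h1
  -- `κ m` is the largest `j ≤ m` with `A j ≤ m`
  set κ : ℕ → ℕ := fun m => Nat.findGreatest (fun j => A j ≤ m) m with hκ
  have hκmono : Monotone κ := by
    intro m n hmn
    rw [hκ]
    simp only
    exact Nat.findGreatest_mono (fun j hj => le_trans hj hmn) hmn
  have hκge : ∀ j : ℕ, ∀ m, max (A j) j ≤ m → j ≤ κ m := by
    intro j m hm
    rw [hκ]
    simp only
    exact Nat.le_findGreatest (le_trans (le_max_right _ _) hm) (le_trans (le_max_left _ _) hm)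
  have hκt : Tendsto κ atTop atTop := by
    rw [tendsto_atTop_atTop]
    intro j
    exact ⟨max (A j) j, fun m hm => hκge j m hm⟩
  refine ⟨κ, hκt, ?_⟩
  rw [almostAll_iff]
  intro ε hε
  obtain ⟨j, hj⟩ := exists_nat_gt (1 / ε)
  refine ⟨max (max (A (j + 1)) (j + 1)) 1, fun N hN => ?_⟩
  have b1 : j + 1 ≤ κ N := hκge (j + 1) N (le_trans (le_max_left _ _) hN)
  have b2 : A (κ N) ≤ N := by
    have h3 : κ N ≠ 0 := by omega
    exact Nat.findGreatest_of_ne_zero (P := fun j => A j ≤ N) (n := N) rfl h3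
  have h4 := hA (κ N) N b2
  have hsub : (Icc 1 N).filter (fun m => ¬ P (κ m) m) ⊆ (Icc 1 N).filter (fun m => ¬ P (κ N) m) := by
    intro m hm
    rw [mem_filter, mem_Icc] at hm
    rw [mem_filter, mem_Icc]
    exact ⟨hm.1, fun h5 => hm.2 (hmono _ _ m (hκmono hm.1.2) h5)⟩
  have h5 : (((Icc 1 N).filter (fun m => ¬ P (κ m) m)).card : ℝ) ≤
      (((Icc 1 N).filter (fun m => ¬ P (κ N) m)).card : ℝ) := by exact_mod_cast card_le_card hsub
  have h6 : 1 / (((κ N : ℕ) : ℝ) + 1) ≤ ε := by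
    rw [div_le_iff₀ (by positivity)]
    rw [div_lt_iff₀ hε] at hj
    have : (j : ℝ) + 1 ≤ ((κ N : ℕ) : ℝ) := by exact_mod_cast b1
    nlinarith
  have hN0 : (0 : ℝ) ≤ N := Nat.cast_nonneg _
  refine le_trans (Nat.cast_le.2 (card_mono' fun m hm => hm)) (h5.trans (h4.trans ?_))
  exact mul_le_mul_of_nonneg_right h6 hN0

theorem formula_mono {ε ε' : ℝ} {W W' n : ℕ} (hε : ε ≤ ε') (hW : W' ≤ W) (hn : 3 ≤ n) (h : Formula ε W n) :
    Formula ε' W' n := by
  have hHL := HL_pos (n := n) (by omega)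
  have hs := Pool.Agent.W93.GB.one_le_sing n
  have hn3 : (3 : ℝ) ≤ n := by exact_mod_cast hn
  have hL1 : 1 ≤ Real.log n := by
    rw [Real.le_log_iff_exp_le (by linarith)]
    have := Real.exp_one_lt_d9
    linarith
  refine ⟨h.1.trans (mul_le_mul_of_nonneg_right hε hHL.le), fun y₁ y₂ h1 h2 h3 => ?_⟩
  have h4 : (n : ℝ) / Real.log n ^ W ≤ (n : ℝ) / Real.log n ^ W' := by
    apply div_le_div_of_nonneg_left (Nat.cast_nonneg _) (by positivity)
    exact pow_le_pow_right₀ hL1 hW
  refine (h.2 y₁ y₂ h1 h2 (h4.trans h3)).trans ?_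
  apply mul_le_mul_of_nonneg_right hε
  have : (0 : ℝ) ≤ (y₂ : ℝ) - y₁ := by
    have : (y₁ : ℝ) ≤ y₂ := by exact_mod_cast h1.le
    linarith
  have h5 : (0 : ℝ) < sing n := by linarith
  positivity

/-- **Goldbach's problem along the orbits of Euler's function.** (1) Let `f` be a positive multiplicative function of
at most polynomial growth with `f p = p + c` for all large primes `p`, and let `a ≠ 0`. There is a function `κ` tending
to infinity such that for almost all `m` and all `k ≤ κ m` the integer `f (φ_k m) + a` is positive and, if it is even,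
satisfies the formula of Hardy and Littlewood for the number of representations as a sum of two primes with a relative
error of at most `1 / (κ m + 1)`, also if one of the primes is restricted to a window of length at least `n / (log n)^(κ m)`.
(2) Euler's function, the sum of the divisors and the identity are examples. (3) There is a function `κ` tending to
infinity such that for almost all `m` and all `1 ≤ k ≤ κ m` the number of pairs of primes with `φ(p) + φ(q) = φ_k(m)` is
`HL (φ_k(m) + 2)` up to a relative error of at most `1 / (κ m + 1)`, and the system `φ(n - x) + 1 = n - x`,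
`φ(n + x) + 1 = n + x` has an integral solution for `n = φ_k(m) / 2 + 1`. -/
theorem result :
    (∀ (f : ℕ → ℕ) (c a : ℤ), Shifted f c → a ≠ 0 → ∃ κ : ℕ → ℕ, Tendsto κ atTop atTop ∧
      AlmostAll (fun m => ∀ k ≤ κ m, 0 < (f (Nat.totient^[k] m) : ℤ) + a ∧
        (Even ((f (Nat.totient^[k] m) : ℤ) + a) →
          Formula (1 / ((κ m : ℝ) + 1)) (κ m) ((f (Nat.totient^[k] m) : ℤ) + a).toNat))) ∧
    (Shifted Nat.totient (-1) ∧ Shifted (fun m => ∑ d ∈ m.divisors, d) 1 ∧ Shifted (fun m => m) 0) ∧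
    (∃ κ : ℕ → ℕ, Tendsto κ atTop atTop ∧ AlmostAll (fun m => ∀ k, 1 ≤ k → k ≤ κ m →
      |(pairs (Nat.totient^[k] m) : ℝ) - HL (Nat.totient^[k] m + 2)| ≤
        1 / ((κ m : ℝ) + 1) * HL (Nat.totient^[k] m + 2) ∧
      ∃ x : ℤ, IsSolution (Nat.totient^[k] m / 2 + 1) x)) := by
  refine ⟨fun f c a hf ha => ?_, ⟨shifted_totient, shifted_sigma, shifted_id⟩, ?_⟩
  · -- the integer is at least `3` for almost all `m`
    have h3 : ∀ k, AlmostAll (fun m => 3 ≤ (f (Nat.totient^[k] m) : ℤ) + a) := by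
      intro k
      by_cases ha2 : a = 2
      · have h := general k f c (a - 3) 1 0 hf (by omega) one_pos
        exact almostAll_and h h 0 (fun m _ h1 _ => by have := h1.1; omega)
      · have h := general k f c (a - 2) 1 0 hf (by omega) one_pos
        exact almostAll_and h h 0 (fun m _ h1 _ => by have := h1.1; omega)
    obtain ⟨κ, hκ, h⟩ := diagonal (P := fun j m => ∀ k ≤ j, 3 ≤ (f (Nat.totient^[k] m) : ℤ) + a ∧
        (Even ((f (Nat.totient^[k] m) : ℤ) + a) →
          Formula (1 / ((j : ℝ) + 1)) j ((f (Nat.totient^[k] m) : ℤ) + a).toNat)) (by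
      intro i j m hij h k hk
      obtain ⟨h1, h2⟩ := h k (hk.trans hij)
      refine ⟨h1, fun he => formula_mono ?_ hij (by omega) (h2 he)⟩
      apply one_div_le_one_div_of_le (by positivity)
      have : (i : ℝ) ≤ j := by exact_mod_cast hij
      linarith) (by
      intro j
      exact almostAll_ball (fun k => almostAll_and (h3 k)
        (general k f c a (1 / ((j : ℝ) + 1)) j hf ha (by positivity)) 0
        (fun m _ h1 h2 => ⟨h1, h2.2⟩)) j)
    exact ⟨κ, hκ, almostAll_and h h 0 (fun m _ h1 _ k hk => ⟨by have := (h1 k hk).1; omega, (h1 k hk).2⟩)⟩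
  · have key : ∀ j k : ℕ, AlmostAll (fun m => 1 ≤ k →
        (|(pairs (Nat.totient^[k] m) : ℝ) - HL (Nat.totient^[k] m + 2)| ≤
          1 / ((j : ℝ) + 1) * HL (Nat.totient^[k] m + 2) ∧
        ∃ x : ℤ, IsSolution (Nat.totient^[k] m / 2 + 1) x)) := by
      intro j k
      rcases Nat.eq_zero_or_pos k with h0 | h0
      · have h := general 0 (fun m => m) 0 1 1 0 shifted_id one_ne_zero one_pos
        exact almostAll_and h h 0 (fun m _ _ _ hk => absurd hk (by omega))
      obtain ⟨i, rfl⟩ : ∃ i, k = i + 1 := ⟨k - 1, by omega⟩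
      have hj : (0 : ℝ) < 1 / ((j : ℝ) + 2) := by positivity
      have e1 := general i (fun m => m) 0 (-2) 1 0 shifted_id (by norm_num) one_pos
      have e2 := general (i + 1) (fun m => m) 0 2 (1 / ((j : ℝ) + 2)) 0 shifted_id (by norm_num) hj
      refine almostAll_and e1 e2 0 (fun m _ h1 h2 _ => ?_)
      have h3 : 3 ≤ Nat.totient^[i] m := by have := h1.1; omega
      have he : Even (Nat.totient^[i + 1] m) := by
        rw [Function.iterate_succ_apply']
        exact Nat.totient_even (by omega)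
      have hpos : 1 ≤ Nat.totient^[i + 1] m := by
        rw [Function.iterate_succ_apply']
        exact Nat.totient_pos.2 (by omega)
      have h2' : 2 ≤ Nat.totient^[i + 1] m := by
        obtain ⟨t, ht⟩ := he
        omega
      have e3 : ((Nat.totient^[i + 1] m : ℕ) : ℤ) + 2 = ((Nat.totient^[i + 1] m + 2 : ℕ) : ℤ) := by push_cast; ring
      have e4 : Even (((Nat.totient^[i + 1] m : ℕ) : ℤ) + 2) := by
        obtain ⟨t, ht⟩ := he
        exact ⟨t + 1, by omega⟩
      have h4 := (h2.2 e4).1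
      rw [e3, Int.toNat_natCast] at h4
      have hHL := HL_pos (n := Nat.totient^[i + 1] m + 2) (by omega)
      have i1 : (1 : ℝ) / ((j : ℝ) + 2) ≤ 1 / ((j : ℝ) + 1) :=
        one_div_le_one_div_of_le (by positivity) (by linarith)
      have i2 : (1 : ℝ) / ((j : ℝ) + 2) ≤ 1 / 2 :=
        one_div_le_one_div_of_le (by norm_num) (by linarith [(Nat.cast_nonneg j : (0 : ℝ) ≤ j)])
      refine ⟨?_, solution_of he h2' (h4.trans (mul_le_mul_of_nonneg_right i2 hHL.le))⟩
      rw [pairs_eq]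
      exact h4.trans (mul_le_mul_of_nonneg_right i1 hHL.le)
    obtain ⟨κ, hκ, h⟩ := diagonal (P := fun j m => ∀ k ≤ j, 1 ≤ k →
        (|(pairs (Nat.totient^[k] m) : ℝ) - HL (Nat.totient^[k] m + 2)| ≤
          1 / ((j : ℝ) + 1) * HL (Nat.totient^[k] m + 2) ∧
        ∃ x : ℤ, IsSolution (Nat.totient^[k] m / 2 + 1) x)) (by
      intro i j m hij h k hk hk1
      obtain ⟨h1, h2⟩ := h k (hk.trans hij) hk1
      refine ⟨h1.trans ?_, h2⟩
      have hHL := HL_pos (n := Nat.totient^[k] m + 2) (by omega)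
      apply mul_le_mul_of_nonneg_right _ hHL.le
      apply one_div_le_one_div_of_le (by positivity)
      have : (i : ℝ) ≤ j := by exact_mod_cast hij
      linarith) (fun j => almostAll_ball (key j) j)
    exact ⟨κ, hκ, almostAll_and h h 0 (fun m _ h1 _ k hk1 hk => h1 k hk hk1)⟩

end Pool.Agent.Results.MP_967f73_nt.IteratedTotients
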